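import Mathlib

/-!
# Cocycles with values in a field, subgroups of index two
-/

set_option autoImplicit false
set_option linter.unusedSectionVars false

namespace Pool.Agent.D0H43.SC

open Topology

variable {G : Type} [Group G] [TopologicalSpace G] {F : Type} [NormedField F]

/-- a continuous cocycle on the subgroup `H` with values in `A` -/
structure CocF (A : Set F) (X : G →* F) (H : Subgroup G) (c : G → F) : Prop where
  cont : ContinuousOn c H
  mul : ∀ σ ∈ H, ∀ τ ∈ H, c (σ * τ) = c σ + X σ * c τ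
  mem : ∀ σ ∈ H, c σ ∈ A

variable {X ψ : G →* F} {c : G → F}

lemma X_inv (σ : G) : X σ⁻¹ * X σ = 1 := by rw [← map_mul, inv_mul_cancel, map_one]

lemma X_inv' (σ : G) : X σ * X σ⁻¹ = 1 := by rw [← map_mul, mul_inv_cancel, map_one]

lemma X_conj (t g : G) : X (t⁻¹ * g * t) = X g := by
  rw [map_mul, map_mul]
  linear_combination X g * X_inv (X := X) t

/-- the kernel of `ψ` on the subgroup `G'` -/
def krF (ψ : G →* F) (G' : Subgroup G) : Subgroup G := G' ⊓ ψ.ker

lemma mem_krF {G' : Subgroup G} {σ : G} : σ ∈ krF ψ G' ↔ σ ∈ G' ∧ ψ σ = 1 := Iff.rfl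

open Classical in
/-- the corestriction -/
noncomputable def corF (X ψ : G →* F) (t : G) (c : G → F) (g : G) : F :=
  if ψ g = 1 then c g + X t * c (t⁻¹ * g * t) else c (g * t) + X t * c (t⁻¹ * g)

section

variable [CharZero F] {G' : Subgroup G} (hψ : ∀ σ ∈ G', ψ σ = 1 ∨ ψ σ = -1) {t : G} (ht : t ∈ G')
  (hε : ψ t = -1)

lemma n1 [CharZero F] : (-1 : F) ≠ 1 := by
  intro h
  have h2 : (2 : F) = 0 := by linear_combination -h
  exact two_ne_zero h2

include hε in
lemma eps_inv : ψ t⁻¹ = -1 := by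
  have h := X_inv (X := ψ) t
  rw [hε] at h
  linear_combination -h

include ht hε

lemma conj_kr {g : G} (hg : g ∈ krF ψ G') : t⁻¹ * g * t ∈ krF ψ G' := by
  obtain ⟨h1, h2⟩ := mem_krF.1 hg
  refine mem_krF.2 ⟨G'.mul_mem (G'.mul_mem (G'.inv_mem ht) h1) ht, ?_⟩
  rw [X_conj, h2]

lemma mul_kr {g : G} (hg : g ∈ G') (h : ψ g = -1) : g * t ∈ krF ψ G' := by
  refine mem_krF.2 ⟨G'.mul_mem hg ht, ?_⟩
  rw [map_mul, h, hε]
  ring

lemma kr_mul {g : G} (hg : g ∈ G') (h : ψ g = -1) : t⁻¹ * g ∈ krF ψ G' := by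
  refine mem_krF.2 ⟨G'.mul_mem (G'.inv_mem ht) hg, ?_⟩
  rw [map_mul, eps_inv hε, h]
  ring

include hψ

lemma cor_mul (hc : ∀ σ ∈ krF ψ G', ∀ τ ∈ krF ψ G', c (σ * τ) = c σ + X σ * c τ) {g h : G}
    (hg : g ∈ G') (hh : h ∈ G') : corF X ψ t c (g * h) = corF X ψ t c g + X g * corF X ψ t c h := by
  have n1 : (-1 : F) ≠ 1 := n1
  rcases hψ g hg with h1 | h1 <;> rcases hψ h hh with h2 | h2
  · have h3 : ψ (g * h) = 1 := by rw [map_mul, h1, h2, mul_one]
    unfold corF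
    rw [if_pos h3, if_pos h1, if_pos h2]
    have hg' : g ∈ krF ψ G' := mem_krF.2 ⟨hg, h1⟩
    have hh' : h ∈ krF ψ G' := mem_krF.2 ⟨hh, h2⟩
    have e : t⁻¹ * (g * h) * t = (t⁻¹ * g * t) * (t⁻¹ * h * t) := by group
    rw [e, hc g hg' h hh', hc _ (conj_kr ht hε hg') _ (conj_kr ht hε hh'), X_conj]
    ring
  · have h3 : ψ (g * h) = -1 := by rw [map_mul, h1, h2, one_mul]
    unfold corF
    rw [if_neg (by rw [h3]; exact n1), if_pos h1, if_neg (by rw [h2]; exact n1)]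
    have hg' : g ∈ krF ψ G' := mem_krF.2 ⟨hg, h1⟩
    have e : t⁻¹ * (g * h) = (t⁻¹ * g * t) * (t⁻¹ * h) := by group
    rw [mul_assoc g h t, hc g hg' _ (mul_kr ht hε hh h2), e, hc _ (conj_kr ht hε hg') _
      (kr_mul ht hε hh h2), X_conj]
    ring
  · have h3 : ψ (g * h) = -1 := by rw [map_mul, h1, h2, mul_one]
    unfold corF
    rw [if_neg (by rw [h3]; exact n1), if_neg (by rw [h1]; exact n1), if_pos h2]
    have hh' : h ∈ krF ψ G' := mem_krF.2 ⟨hh, h2⟩
    have e : g * h * t = (g * t) * (t⁻¹ * h * t) := by group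
    have e' : t⁻¹ * (g * h) = (t⁻¹ * g) * h := by group
    rw [e, e', hc _ (mul_kr ht hε hg h1) _ (conj_kr ht hε hh'), hc _ (kr_mul ht hε hg h1) _ hh',
      map_mul, map_mul]
    linear_combination (X g * c h) * X_inv (X := X) t
  · have h3 : ψ (g * h) = 1 := by rw [map_mul, h1, h2]; ring
    unfold corF
    rw [if_pos h3, if_neg (by rw [h1]; exact n1), if_neg (by rw [h2]; exact n1)]
    have e : g * h = (g * t) * (t⁻¹ * h) := by group
    have e' : t⁻¹ * (g * h) * t = (t⁻¹ * g) * (h * t) := by group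
    rw [e', e, hc _ (mul_kr ht hε hg h1) _ (kr_mul ht hε hh h2), hc _ (kr_mul ht hε hg h1) _
      (mul_kr ht hε hh h2), map_mul, map_mul]
    linear_combination (X g * c (h * t)) * X_inv (X := X) t

lemma cor_cont [IsTopologicalGroup G] (hop : ∀ u : F, IsOpen {g | ψ g = u})
    (hc : ContinuousOn c (krF ψ G')) : ContinuousOn (corF X ψ t c) G' := by
  intro g hg
  have n1 : (-1 : F) ≠ 1 := n1
  have hcj : ∀ (f : G → G) (hf : Continuous f) (u : F), ψ g = u →
      (∀ x ∈ G', ψ x = u → f x ∈ krF ψ G') → ContinuousWithinAt (fun x => c (f x)) G' g := by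
    intro f hf u hu hm
    have h1 : ContinuousWithinAt (fun x => c (f x)) (G' ∩ {x | ψ x = u}) g := by
      have h2 : ContinuousOn (fun x => c (f x)) (G' ∩ {x | ψ x = u}) :=
        hc.comp hf.continuousOn fun x hx => hm x hx.1 hx.2
      exact h2 g ⟨hg, hu⟩
    exact (continuousWithinAt_inter ((hop u).mem_nhds hu)).1 h1
  rcases hψ g hg with h1 | h1
  · have h2 : ContinuousWithinAt (fun x => c x + X t * c (t⁻¹ * x * t)) G' g :=
      (hcj (fun x => x) continuous_id 1 h1 fun x hx hx1 => mem_krF.2 ⟨hx, hx1⟩).add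
        ((hcj (fun x => t⁻¹ * x * t) (by fun_prop) 1 h1 fun x hx hx1 =>
          conj_kr ht hε (mem_krF.2 ⟨hx, hx1⟩)).const_smul (X t))
    refine h2.congr_of_eventuallyEq ?_ ?_
    · filter_upwards [mem_nhdsWithin_of_mem_nhds ((hop 1).mem_nhds h1)] with x hx
      exact if_pos hx
    · exact if_pos h1
  · have h2 : ContinuousWithinAt (fun x => c (x * t) + X t * c (t⁻¹ * x)) G' g :=
      (hcj (fun x => x * t) (by fun_prop) (-1) h1 fun x hx hx1 => mul_kr ht hε hx hx1).add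
        ((hcj (fun x => t⁻¹ * x) (by fun_prop) (-1) h1 fun x hx hx1 =>
          kr_mul ht hε hx hx1).const_smul (X t))
    refine h2.congr_of_eventuallyEq ?_ ?_
    · filter_upwards [mem_nhdsWithin_of_mem_nhds ((hop (-1)).mem_nhds h1)] with x hx
      have hx' : ψ x = -1 := hx
      exact if_neg (by rw [hx']; exact n1)
    · exact if_neg (by rw [h1]; exact n1)

lemma cor_mem {A : Subfield F} (hX : ∀ σ, X σ ∈ A) (hc : ∀ σ ∈ krF ψ G', c σ ∈ A) {g : G}
    (hg : g ∈ G') : corF X ψ t c g ∈ A := by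
  have n1 : (-1 : F) ≠ 1 := n1
  unfold corF
  rcases hψ g hg with h1 | h1
  · rw [if_pos h1]
    exact A.add_mem (hc _ (mem_krF.2 ⟨hg, h1⟩)) (A.mul_mem (hX t)
      (hc _ (conj_kr ht hε (mem_krF.2 ⟨hg, h1⟩))))
  · rw [if_neg (by rw [h1]; exact n1)]
    exact A.add_mem (hc _ (mul_kr ht hε hg h1)) (A.mul_mem (hX t) (hc _ (kr_mul ht hε hg h1)))

end

/-- restriction to a subgroup of index two is injective -/
lemma ext_two [CharZero F] {I : Subgroup G} (hψ : ∀ σ ∈ I, ψ σ = 1 ∨ ψ σ = -1) {a : G → F}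
    (ha : ∀ σ ∈ I, ∀ τ ∈ I, a (σ * τ) = a σ + X σ * a τ)
    {y : F} (hy : ∀ σ ∈ krF ψ I, a σ = (X σ - 1) * y) :
    ∃ z : F, ∀ σ ∈ I, a σ = (X σ - 1) * z := by
  by_cases hI : ∃ t ∈ I, ψ t = -1
  · obtain ⟨t, ht, hε⟩ := hI
    have hti := I.inv_mem ht
    have h1 : a 1 = 0 := by
      have h := ha 1 I.one_mem 1 I.one_mem
      rw [mul_one, map_one, one_mul] at h
      exact left_eq_add.1 h
    set f : G → F := fun x => X x * y - a x with hF
    have hinv : ∀ x ∈ I, ∀ j ∈ krF ψ I, f (x * j) = f x := by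
      intro x hx j hj
      simp only [hF]
      rw [ha x hx j (mem_krF.1 hj).1, map_mul, hy j hj]
      ring
    have hF1 : f 1 = y := by
      simp only [hF]
      rw [h1, map_one]
      ring
    have hcoc : ∀ g ∈ I, ∀ x ∈ I, f (g * x) = X g * f x - a g := by
      intro g hg x hx
      simp only [hF]
      rw [ha g hg x hx, map_mul]
      ring
    refine ⟨(f 1 + f t) / 2, fun g hg => ?_⟩
    have hsum : f g + f (g * t) = f 1 + f t := by
      rcases hψ g hg with h2 | h2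
      · have e1 : f g = f 1 := by
          have := hinv 1 I.one_mem g (mem_krF.2 ⟨hg, h2⟩)
          rwa [one_mul] at this
        have e2 : f (g * t) = f t := by
          have := hinv t ht (t⁻¹ * g * t) (conj_kr ht hε (mem_krF.2 ⟨hg, h2⟩))
          rwa [show t * (t⁻¹ * g * t) = g * t by group] at this
        rw [e1, e2]
      · have e1 : f g = f t := by
          have := hinv t ht (t⁻¹ * g) (kr_mul ht hε hg h2)
          rwa [show t * (t⁻¹ * g) = g by group] at this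
        have e2 : f (g * t) = f 1 := by
          have := hinv 1 I.one_mem (g * t) (mul_kr ht hε hg h2)
          rwa [one_mul] at this
        rw [e1, e2]
        ring
    have e3 := hcoc g hg 1 I.one_mem
    have e4 := hcoc g hg t ht
    rw [mul_one] at e3
    rw [e3, e4] at hsum
    have h2 : (2 : F) ≠ 0 := two_ne_zero
    field_simp
    linear_combination (-1 : F) * hsum
  · push Not at hI
    refine ⟨y, fun σ hσ => hy σ (mem_krF.2 ⟨hσ, ?_⟩)⟩
    rcases hψ σ hσ with h | h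
    · exact h
    · exact absurd h (hI σ hσ)

/-- the corestriction is locally trivial -/
lemma cor_loc [CharZero F] {G' I : Subgroup G} (hψ : ∀ σ ∈ G', ψ σ = 1 ∨ ψ σ = -1) {t : G}
    (ht : t ∈ G') (hε : ψ t = -1)
    (hc : ∀ σ ∈ krF ψ G', ∀ τ ∈ krF ψ G', c (σ * τ) = c σ + X σ * c τ)
    {y y' : F} (hy : ∀ σ ∈ I, σ ∈ krF ψ G' → c σ = (X σ - 1) * y)
    (hy' : ∀ σ ∈ I, σ ∈ krF ψ G' → c (t⁻¹ * σ * t) = (X σ - 1) * y') :
    ∃ z : F, ∀ σ ∈ I, σ ∈ G' → corF X ψ t c σ = (X σ - 1) * z := by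
  have h1 := ext_two (X := X) (ψ := ψ) (I := I ⊓ G') (a := corF X ψ t c)
    (fun σ hσ => hψ σ hσ.2)
    (fun σ hσ τ hτ => cor_mul hψ ht hε hc hσ.2 hτ.2) (y := y + X t * y') (fun σ hσ => by
      have h2 : ψ σ = 1 := (mem_krF.1 hσ).2
      have h3 : σ ∈ krF ψ G' := mem_krF.2 ⟨(mem_krF.1 hσ).1.2, h2⟩
      unfold corF
      rw [if_pos h2, hy σ (mem_krF.1 hσ).1.1 h3, hy' σ (mem_krF.1 hσ).1.1 h3]
      ring)
  obtain ⟨z, hz⟩ := h1
  exact ⟨z, fun σ h2 h3 => hz σ ⟨h2, h3⟩⟩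

end Pool.Agent.D0H43.SC
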