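import Pool.Agent.R384.Sel
import Pool.Agent.D0H43.SC.Coh

/-!
# The residue field of `ℚ_2(ζ)`, `ζ` a root of unity of order a power of two
-/

set_option autoImplicit false
set_option linter.unusedSectionVars false

namespace Pool.Agent.D0H43.SC

open Polynomial

/-- the coefficients -/
abbrev FF : Type := PadicAlgCl 2

/-- the elements of norm at most one are `0` or `1` modulo the elements of norm less than one -/
def Rs (A : Subfield FF) : Prop := ∀ x ∈ A, ‖x‖ ≤ 1 → ‖x‖ < 1 ∨ ‖x - 1‖ < 1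

lemma nadd {x y : FF} {r : ℝ} (h1 : ‖x‖ < r) (h2 : ‖y‖ < r) : ‖x + y‖ < r :=
  lt_of_le_of_lt (IsUltrametricDist.norm_add_le_max _ _) (max_lt h1 h2)

lemma nadd' {x y : FF} {r : ℝ} (h1 : ‖x‖ ≤ r) (h2 : ‖y‖ ≤ r) : ‖x + y‖ ≤ r :=
  (IsUltrametricDist.norm_add_le_max _ _).trans (max_le h1 h2)

lemma nq (z : ℚ_[2]) : ‖algebraMap ℚ_[2] FF z‖ = ‖z‖ := PadicAlgCl.norm_extends 2 z

lemma two_norm : ‖(2 : FF)‖ = 1 / 2 := by
  have h := nq 2
  rw [map_ofNat] at h
  rw [h]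
  exact Pool.Agent.R384.norm_two'

/-- the norm of `w - 1` -/
lemma norm_root : ∀ (m : ℕ) {w : FF}, w ^ 2 ^ m = -1 → ‖w - 1‖ ^ 2 ^ m = 1 / 2 := by
  intro m
  induction m with
  | zero =>
    intro w hw
    rw [pow_zero, pow_one] at hw
    rw [hw, pow_zero, pow_one]
    have e : (-1 : FF) - 1 = -2 := by ring
    rw [e, norm_neg, two_norm]
  | succ m ih =>
    intro w hw
    have h1 : (w ^ 2) ^ 2 ^ m = -1 := by
      rw [← pow_mul, ← pow_succ', hw]
    have h2 := ih h1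
    have e : w ^ 2 - 1 = (w - 1) * (w + 1) := by ring
    rw [e, norm_mul] at h2
    have hp : 0 ≤ ‖w - 1‖ := norm_nonneg _
    have hq : 0 ≤ ‖w + 1‖ := norm_nonneg _
    have heq : ‖w - 1‖ = ‖w + 1‖ := by
      by_contra hne
      have h3 : ‖(2 : FF)‖ = max ‖w + 1‖ ‖w - 1‖ := by
        have e2 : (2 : FF) = (w + 1) + -(w - 1) := by ring
        have e3 : ‖(w + 1) + -(w - 1)‖ = max ‖w + 1‖ ‖-(w - 1)‖ :=
          IsUltrametricDist.norm_add_eq_max_of_norm_ne_norm (by rw [norm_neg]; exact Ne.symm hne)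
        rw [← e2, norm_neg] at e3
        exact e3
      rw [two_norm] at h3
      have h4 : ‖w + 1‖ ≤ 1 / 2 := by rw [h3]; exact le_max_left _ _
      have h5 : ‖w - 1‖ ≤ 1 / 2 := by rw [h3]; exact le_max_right _ _
      have h6 : ‖w - 1‖ * ‖w + 1‖ ≤ 1 / 4 := by
        calc ‖w - 1‖ * ‖w + 1‖ ≤ 1 / 2 * (1 / 2) := mul_le_mul h5 h4 hq (by norm_num)
          _ = 1 / 4 := by norm_num
      have h7 : (‖w - 1‖ * ‖w + 1‖) ^ 2 ^ m ≤ ‖w - 1‖ * ‖w + 1‖ := by
        have h8 : 1 ≤ 2 ^ m := Nat.one_le_two_pow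
        calc (‖w - 1‖ * ‖w + 1‖) ^ 2 ^ m ≤ (‖w - 1‖ * ‖w + 1‖) ^ 1 :=
              pow_le_pow_of_le_one (mul_nonneg hp hq) (by linarith) h8
          _ = _ := pow_one _
      rw [h2] at h7
      linarith
    rw [← heq] at h2
    rw [pow_succ', pow_mul, pow_two]
    exact h2

section res

variable {m : ℕ} {ζ : FF} (hζ : ζ ^ 2 ^ m = -1)

include hζ

lemma rho_pos : 0 < ‖ζ - 1‖ := by
  rcases (norm_nonneg (ζ - 1)).lt_or_eq with h | h
  · exact h
  · exfalso
    have h1 := norm_root m hζ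
    rw [← h, zero_pow (by positivity)] at h1
    norm_num at h1

lemma rho_lt : ‖ζ - 1‖ < 1 := by
  by_contra h
  push Not at h
  have h1 := norm_root m hζ
  have h2 := one_le_pow₀ h (n := 2 ^ m)
  rw [h1] at h2
  norm_num at h2

/-- the norms of the elements of `ℚ_2` -/
lemma norm_q {a : ℚ_[2]} (ha : a ≠ 0) :
    ∃ v : ℤ, ‖a‖ = ‖ζ - 1‖ ^ ((2 ^ m : ℕ) * v : ℤ) := by
  refine ⟨a.valuation, ?_⟩
  rw [zpow_mul, zpow_natCast, norm_root m hζ, Padic.norm_eq_zpow_neg_valuation ha]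
  push_cast
  rw [one_div, inv_zpow, zpow_neg]

lemma norm_term {a : ℚ_[2]} (ha : a ≠ 0) (j : ℕ) :
    ∃ v : ℤ, ‖algebraMap ℚ_[2] FF a * (ζ - 1) ^ j‖ = ‖ζ - 1‖ ^ ((2 ^ m : ℕ) * v + j : ℤ) := by
  obtain ⟨v, hv⟩ := norm_q hζ ha
  refine ⟨v, ?_⟩
  rw [norm_mul, nq, norm_pow, hv, zpow_add₀ (rho_pos hζ).ne', zpow_natCast]

lemma zinj {a b : ℤ} (h : ‖ζ - 1‖ ^ a = ‖ζ - 1‖ ^ b) : a = b :=
  zpow_right_injective₀ (rho_pos hζ) (rho_lt hζ).ne h

/-- the elements of `ℚ_2(ζ)` are polynomials in `ζ - 1` of small degree -/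
lemma expand {x : FF} (hx : x ∈ IntermediateField.adjoin ℚ_[2] {ζ}) :
    ∃ a : ℕ → ℚ_[2], x = ∑ j ∈ Finset.range (2 ^ m), algebraMap ℚ_[2] FF (a j) * (ζ - 1) ^ j := by
  have hint : IsIntegral ℚ_[2] ζ := Algebra.IsIntegral.isIntegral ζ
  have h1 : x ∈ (IntermediateField.adjoin ℚ_[2] {ζ}).toSubalgebra := hx
  rw [IntermediateField.adjoin_simple_toSubalgebra_of_isAlgebraic hint.isAlgebraic,
    Algebra.adjoin_singleton_eq_range_aeval] at h1
  obtain ⟨p, hp⟩ := h1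
  have hp' : aeval ζ p = x := hp
  set f : ℚ_[2][X] := (X + C 1) ^ 2 ^ m + 1 with hf
  have hm1 : ((X + C 1 : ℚ_[2][X]) ^ 2 ^ m).Monic := (monic_X_add_C 1).pow _
  have hdeg1 : ((X + C 1 : ℚ_[2][X]) ^ 2 ^ m).natDegree = 2 ^ m := by
    rw [(monic_X_add_C (1 : ℚ_[2])).natDegree_pow, natDegree_X_add_C, mul_one]
  have hlt : (1 : ℚ_[2][X]).degree < ((X + C 1 : ℚ_[2][X]) ^ 2 ^ m).degree := by
    rw [degree_one, degree_eq_natDegree hm1.ne_zero, hdeg1]
    exact_mod_cast Nat.two_pow_pos m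
  have hfm : f.Monic := hm1.add_of_left hlt
  have hfd : f.natDegree = 2 ^ m := by
    rw [hf, natDegree_add_eq_left_of_degree_lt hlt, hdeg1]
  have hfr : aeval (ζ - 1) f = 0 := by
    rw [hf]
    simp [hζ]
  have e1 : aeval (ζ - 1) (p.comp (X + C 1)) = x := by
    rw [aeval_comp]
    simp [hp']
  set q := p.comp (X + C 1) %ₘ f with hq
  have e2 : aeval (ζ - 1) q = x := by
    rw [hq, ← e1]
    exact aeval_modByMonic_eq_self_of_root hfr
  have hqd : q.natDegree < 2 ^ m := by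
    rw [← hfd]
    refine natDegree_modByMonic_lt _ hfm ?_
    intro h
    have := hfd
    rw [h, natDegree_one] at this
    have h2 := Nat.two_pow_pos m
    omega
  refine ⟨q.coeff, ?_⟩
  rw [← e2, aeval_eq_sum_range' hqd]
  refine Finset.sum_congr rfl fun j _ => ?_
  rw [Algebra.smul_def]

lemma sum_lt {s : Finset ℕ} {t : ℕ → FF} {M : ℝ} (hM : 0 < M) (h : ∀ j ∈ s, ‖t j‖ < M) :
    ‖∑ j ∈ s, t j‖ < M := by
  classical
  induction s using Finset.induction_on with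
  | empty => simpa using hM
  | insert j s hj ih =>
    rw [Finset.sum_insert hj]
    exact nadd (h j (Finset.mem_insert_self _ _)) (ih fun i hi => h i (Finset.mem_insert_of_mem hi))

/-- the residue field of `ℚ_2(ζ)` -/
theorem rs : Rs (IntermediateField.adjoin ℚ_[2] {ζ}).toSubfield := by
  intro x hx hx1
  obtain ⟨a, ha⟩ := expand hζ hx
  have hd : 0 < 2 ^ m := Nat.two_pow_pos m
  set t : ℕ → FF := fun j => algebraMap ℚ_[2] FF (a j) * (ζ - 1) ^ j with ht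
  have ht0 : ∀ j, a j = 0 → t j = 0 := fun j h => by
    simp only [ht]
    rw [h, map_zero, zero_mul]
  -- all the terms have norm at most one
  have hle : ∀ j ∈ Finset.range (2 ^ m), ‖t j‖ ≤ 1 := by
    by_contra hcon
    push Not at hcon
    obtain ⟨j₁, hj₁, h1⟩ := hcon
    obtain ⟨j₀, hj₀, hmax⟩ := Finset.exists_max_image (Finset.range (2 ^ m)) (fun j => ‖t j‖)
      ⟨j₁, hj₁⟩
    have hM : 1 < ‖t j₀‖ := lt_of_lt_of_le h1 (hmax j₁ hj₁)
    have hrest : ‖∑ j ∈ (Finset.range (2 ^ m)).erase j₀, t j‖ < ‖t j₀‖ := by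
      refine sum_lt hζ (by linarith) fun j hj => ?_
      obtain ⟨hne, hj⟩ := Finset.mem_erase.1 hj
      refine lt_of_le_of_ne (hmax j hj) fun h => ?_
      by_cases hz : a j = 0
      · rw [ht0 j hz, norm_zero] at h
        linarith
      · have hz0 : a j₀ ≠ 0 := by
          intro h2
          rw [ht0 j₀ h2, norm_zero] at hM
          linarith
        obtain ⟨v, hv⟩ := norm_term hζ hz j
        obtain ⟨v0, hv0⟩ := norm_term hζ hz0 j₀
        have h' : ‖t j‖ = ‖t j₀‖ := h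
        simp only [ht] at h'
        rw [hv, hv0] at h'
        have h3 := zinj hζ h'
        rw [Finset.mem_range] at hj hj₀
        apply hne
        have h4 : ((2 ^ m : ℕ) : ℤ) ∣ (j : ℤ) - j₀ := ⟨v0 - v, by linear_combination h3⟩
        have h5 : (j : ℤ) % (2 ^ m : ℕ) = (j₀ : ℤ) % (2 ^ m : ℕ) :=
          (Int.emod_eq_emod_iff_emod_sub_eq_zero).2 (Int.emod_eq_zero_of_dvd h4)
        have h6 : (j : ℤ) % (2 ^ m : ℕ) = j := Int.emod_eq_of_lt (by positivity) (by exact_mod_cast hj)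
        have h7 : (j₀ : ℤ) % (2 ^ m : ℕ) = j₀ :=
          Int.emod_eq_of_lt (by positivity) (by exact_mod_cast hj₀)
        rw [h6, h7] at h5
        exact_mod_cast h5
    have hx2 : x = t j₀ + ∑ j ∈ (Finset.range (2 ^ m)).erase j₀, t j := by
      rw [Finset.add_sum_erase _ _ hj₀]
      exact ha
    have h3 : ‖t j₀‖ < ‖t j₀‖ := by
      have e : t j₀ = x + -(∑ j ∈ (Finset.range (2 ^ m)).erase j₀, t j) := by rw [hx2]; ring
      calc ‖t j₀‖ = ‖x + -(∑ j ∈ (Finset.range (2 ^ m)).erase j₀, t j)‖ := by rw [← e]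
        _ < ‖t j₀‖ := nadd (by linarith) (by rwa [norm_neg])
    exact lt_irrefl _ h3
  have h0 : (0 : ℕ) ∈ Finset.range (2 ^ m) := Finset.mem_range.2 hd
  have hlt : ‖∑ j ∈ (Finset.range (2 ^ m)).erase 0, t j‖ < 1 := by
    refine sum_lt hζ one_pos fun j hj => ?_
    obtain ⟨hne, hj⟩ := Finset.mem_erase.1 hj
    refine lt_of_le_of_ne (hle j hj) fun h => ?_
    by_cases hz : a j = 0
    · rw [ht0 j hz, norm_zero] at h
      norm_num at h
    · obtain ⟨v, hv⟩ := norm_term hζ hz j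
      simp only [ht] at h
      rw [hv] at h
      have h3 : ((2 ^ m : ℕ) * v + j : ℤ) = 0 := zinj hζ (by rw [h, zpow_zero])
      rw [Finset.mem_range] at hj
      have h4 : ((2 ^ m : ℕ) : ℤ) ∣ (j : ℤ) := ⟨-v, by linear_combination h3⟩
      have h5 := Nat.le_of_dvd (by omega) (Int.natCast_dvd_natCast.1 h4)
      omega
  have hx2 : x = t 0 + ∑ j ∈ (Finset.range (2 ^ m)).erase 0, t j := by
    rw [Finset.add_sum_erase _ _ h0]
    exact ha
  have e0 : t 0 = algebraMap ℚ_[2] FF (a 0) := by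
    simp only [ht]
    rw [pow_zero, mul_one]
  have ha0 : ‖a 0‖ ≤ 1 := by
    have := hle 0 h0
    rwa [e0, nq] at this
  by_cases h : ‖a 0‖ < 1
  · left
    rw [hx2]
    exact nadd (by rwa [e0, nq]) hlt
  · right
    have h1 := (Pool.Agent.R384.md_eq ha0).1 h
    have e : x - 1 = algebraMap ℚ_[2] FF (a 0 - 1) +
        ∑ j ∈ (Finset.range (2 ^ m)).erase 0, t j := by
      rw [hx2, e0, map_sub, map_one]
      ring
    rw [e]
    exact nadd (by rwa [nq]) hlt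

end res

end Pool.Agent.D0H43.SC
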