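import Pool.Agent.D0H43.SG.Van
import Pool.Agent.D0H43.SC.Rs

/-!
# Characters of the absolute Galois group of `ℚ(i)` with values in `ℚ_2(ζ)`: local lemmas
-/

set_option autoImplicit false
set_option linter.unusedSectionVars false

namespace Pool.Agent.D0H43.SC

open H385 (ZI im1 nrm)
open Pool.Agent.Y715.Red Pool.Agent.Y715.Nr Pool.Agent.Y715.Gi
open Pool.Agent.Y715.Df (Cmp exists_cmp exists_emb)
open Pool.Agent.Y715.Lc (norm_two_odd fix_of_unit resid)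
open Pool.Agent.Y715.Sel (iota_sq iota_ev exists_emb2)
open Pool.Agent.Y715.Qr (Sqm)
open Pool.Agent.R384 (II DD conj_mem fix_D fix_I II_sub)
open Pool.Agent.D0H43.SG (no_simple rt_or)

/-! ### Cocycles modulo the maximal ideal -/

section gen

variable {G : Type} [Group G] [TopologicalSpace G] {X : G →* FF} {c : G → FF} {A : Subfield FF}

/-- a coboundary on the set `D` -/
def CobF (X : G →* FF) (D : Set G) (c : G → FF) : Prop := ∃ y : FF, ∀ σ ∈ D, c σ = (X σ - 1) * y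

/-- a continuous cocycle with values in `A` -/
structure CocA (A : Subfield FF) (X : G →* FF) (c : G → FF) : Prop where
  cont : Continuous c
  mul : ∀ σ τ, c (σ * τ) = c σ + X σ * c τ
  mem : ∀ σ, c σ ∈ A

lemma CobF.twist {D : Set G} (h : CobF X D c) (a y : FF) :
    CobF X D fun σ => a * c σ + (X σ - 1) * y := by
  obtain ⟨x, hx⟩ := h
  refine ⟨a * x + y, fun σ hσ => ?_⟩
  simp only [hx σ hσ]
  ring

lemma CocA.twist (hχ : Continuous X) (hA : ∀ σ, X σ ∈ A) (hc : CocA A X c) {a y : FF} (ha : a ∈ A)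
    (hy : y ∈ A) : CocA A X fun σ => a * c σ + (X σ - 1) * y := by
  refine ⟨?_, fun σ τ => ?_, fun σ => A.add_mem (A.mul_mem ha (hc.mem σ))
    (A.mul_mem (A.sub_mem (hA σ) A.one_mem) hy)⟩
  · have h2 := hc.cont
    fun_prop
  · simp only [hc.mul, map_mul]
    ring

/-- the coefficient of a coboundary can be chosen in the field -/
lemma CobF.memA {D : Set G} (h : CobF X D c) (hA : ∀ σ, X σ ∈ A) (hc : ∀ σ, c σ ∈ A) :
    ∃ y ∈ A, ∀ σ ∈ D, c σ = (X σ - 1) * y := by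
  obtain ⟨y, hy⟩ := h
  by_cases hD : ∃ σ ∈ D, X σ ≠ 1
  · obtain ⟨σ, hσ, h1⟩ := hD
    refine ⟨y, ?_, hy⟩
    have h2 : X σ - 1 ≠ 0 := sub_ne_zero.2 h1
    have e : y = c σ / (X σ - 1) := by
      rw [hy σ hσ, mul_div_cancel_left₀ _ h2]
    rw [e]
    exact A.div_mem (hc σ) (A.sub_mem (hA σ) A.one_mem)
  · push Not at hD
    refine ⟨0, A.zero_mem, fun σ hσ => ?_⟩
    rw [hy σ hσ, hD σ hσ]
    ring

/-- a cocycle with integral values, modulo the maximal ideal -/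
noncomputable def mdF (c : G → FF) (σ : G) : ZMod 2 :=
  open Classical in if ‖c σ‖ < 1 then 0 else 1

lemma mdF_zero {σ : G} : mdF c σ = 0 ↔ ‖c σ‖ < 1 := by
  unfold mdF
  split_ifs with h
  · simp [h]
  · simp [h]

lemma mdF_mul (hA : Rs A) (hX : ∀ σ, ‖X σ - 1‖ < 1) (hc : CocA A X c) (h1 : ∀ σ, ‖c σ‖ ≤ 1)
    (σ τ : G) : mdF c (σ * τ) = mdF c σ + mdF c τ := by
  have h2 : ‖c (σ * τ) - (c σ + c τ)‖ < 1 := by
    rw [hc.mul]
    have e : c σ + X σ * c τ - (c σ + c τ) = (X σ - 1) * c τ := by ring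
    rw [e, norm_mul]
    calc ‖X σ - 1‖ * ‖c τ‖ ≤ ‖X σ - 1‖ * 1 := mul_le_mul_of_nonneg_left (h1 τ) (norm_nonneg _)
      _ < 1 := by rw [mul_one]; exact hX σ
  have key : ∀ z : FF, ‖z‖ < 1 → (‖c (σ * τ)‖ < 1 ↔ ‖c σ + c τ - z‖ < 1) := by
    intro z hz
    constructor
    · intro h
      have e : c σ + c τ - z = c (σ * τ) + (-(c (σ * τ) - (c σ + c τ)) + -z) := by ring
      rw [e]
      exact nadd h (nadd (by rwa [norm_neg]) (by rwa [norm_neg]))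
    · intro h
      have e : c (σ * τ) = (c σ + c τ - z) + ((c (σ * τ) - (c σ + c τ)) + z) := by ring
      rw [e]
      exact nadd h (nadd h2 hz)
  unfold mdF
  by_cases hσ : ‖c σ‖ < 1
  · by_cases hτ : ‖c τ‖ < 1
    · have : ‖c (σ * τ)‖ < 1 := (key (c σ + c τ) (nadd hσ hτ)).2 (by
        rw [sub_self, norm_zero]; norm_num)
      simp [hσ, hτ, this]
    · have : ¬ ‖c (σ * τ)‖ < 1 := by
        rw [key (c σ) hσ, add_sub_cancel_left]
        exact hτ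
      simp [hσ, hτ, this]
  · by_cases hτ : ‖c τ‖ < 1
    · have : ¬ ‖c (σ * τ)‖ < 1 := by
        rw [key (c τ) hτ, add_sub_cancel_right]
        exact hσ
      simp [hσ, hτ, this]
    · have a1 := (hA _ (hc.mem σ) (h1 σ)).resolve_left hσ
      have a2 := (hA _ (hc.mem τ) (h1 τ)).resolve_left hτ
      have : ‖c (σ * τ)‖ < 1 := by
        have h20 : ‖(2 : FF)‖ < 1 := by rw [two_norm]; norm_num
        have h5 : ‖(c σ - 1) + (c τ - 1) + 2‖ < 1 := nadd (nadd a1 a2) h20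
        refine (key 0 (by rw [norm_zero]; norm_num)).2 ?_
        have e : c σ + c τ - 0 = (c σ - 1) + (c τ - 1) + 2 := by ring
        rw [e]
        exact h5
      simp only [hσ, hτ, this, if_true, if_false]
      decide

lemma mdF_cont (hc : CocA A X c) : IsLocallyConstant (mdF c) := by
  rw [IsLocallyConstant.iff_exists_open]
  intro σ
  refine ⟨{τ | ‖c τ - c σ‖ < 1}, ?_, by simp, fun τ hτ => ?_⟩
  · exact isOpen_lt (by have := hc.cont; fun_prop) continuous_const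
  · have hτ' : ‖c τ - c σ‖ < 1 := hτ
    have : ‖c τ‖ < 1 ↔ ‖c σ‖ < 1 := by
      constructor
      · intro h
        have e : c σ = c τ + -(c τ - c σ) := by ring
        rw [e]
        exact nadd h (by rwa [norm_neg])
      · intro h
        have e : c τ = (c τ - c σ) + c σ := by ring
        rw [e]
        exact nadd hτ' h
    unfold mdF
    simp [this]

/-- local triviality, the character is trivial on `D` -/
lemma loc_trivF {D : Set G} (h : CobF X D c) (hD : ∀ σ ∈ D, X σ = 1) : ∀ σ ∈ D, mdF c σ = 0 := by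
  obtain ⟨y, hy⟩ := h
  intro σ hσ
  rw [mdF_zero, hy σ hσ, hD σ hσ, sub_self, zero_mul, norm_zero]
  norm_num

/-- local triviality, the character is as far from one as possible on `D` -/
lemma loc_fourF {ρ : ℝ} (hρ : 0 < ρ) (hX : ∀ σ, ‖X σ - 1‖ ≤ ρ) {D : Set G} (h : CobF X D c)
    (h1 : ∀ σ, ‖c σ‖ ≤ 1) {σ₀ : G} (h0 : σ₀ ∈ D) (h2 : ‖X σ₀ - 1‖ = ρ) :
    (∀ σ ∈ D, mdF c σ = 0) ∨ ∀ σ ∈ D, (mdF c σ = 0 ↔ ‖X σ - 1‖ < ρ) := by
  obtain ⟨y, hy⟩ := h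
  have h3 : ρ * ‖y‖ ≤ 1 := by
    have h4 := h1 σ₀
    rwa [hy σ₀ h0, norm_mul, h2] at h4
  rcases h3.lt_or_eq with h5 | h5
  · left
    intro σ hσ
    rw [mdF_zero, hy σ hσ, norm_mul]
    exact lt_of_le_of_lt (mul_le_mul_of_nonneg_right (hX σ) (norm_nonneg y)) h5
  · right
    have hy0 : 0 < ‖y‖ := by
      rcases (norm_nonneg y).lt_or_eq with h | h
      · exact h
      · rw [← h, mul_zero] at h5
        norm_num at h5
    intro σ hσ
    rw [mdF_zero, hy σ hσ, norm_mul, ← h5]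
    constructor
    · intro h
      exact lt_of_mul_lt_mul_right h hy0.le
    · intro h
      exact mul_lt_mul_of_pos_right h hy0

/-- from the inertia group to the decomposition group -/
lemma dec_of_inertF (hc : ∀ σ τ, c (σ * τ) = c σ + X σ * c τ) {I D : Set G} (h : CobF X I c)
    {σ₀ : G} (h0 : σ₀ ∈ I) (hχ : X σ₀ ≠ 1) (hconj : ∀ τ ∈ D, τ⁻¹ * σ₀ * τ ∈ I) : CobF X D c := by
  obtain ⟨y, hy⟩ := h
  refine ⟨y, fun τ hτ => ?_⟩
  have h1 := hc σ₀ τ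
  have h2 := hc τ (τ⁻¹ * σ₀ * τ)
  have e : τ * (τ⁻¹ * σ₀ * τ) = σ₀ * τ := by group
  rw [e, h1, hy _ (hconj τ hτ), hy σ₀ h0, X_conj] at h2
  apply mul_left_cancel₀ (sub_ne_zero.2 hχ)
  linear_combination h2

/-- the integral representative of a non zero continuous function -/
lemma exists_scaleF [CompactSpace G] {c : G → FF} (hc : Continuous c) {σ₁ : G} (h1 : c σ₁ ≠ 0) :
    ∃ σ₀, c σ₀ ≠ 0 ∧ ∀ σ, ‖(c σ₀)⁻¹ * c σ‖ ≤ 1 := by
  have : Nonempty G := ⟨σ₁⟩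
  obtain ⟨σ₀, -, h0⟩ := isCompact_univ.exists_isMaxOn (Set.univ_nonempty (α := G))
    (hc.norm.continuousOn (s := Set.univ))
  have hmax : ∀ σ, ‖c σ‖ ≤ ‖c σ₀‖ := fun σ => h0 (Set.mem_univ σ)
  have h2 : c σ₀ ≠ 0 := by
    intro h
    have h3 := hmax σ₁
    rw [h, norm_zero] at h3
    exact h1 (norm_le_zero_iff.1 h3)
  have h3 : 0 < ‖c σ₀‖ := norm_pos_iff.2 h2
  refine ⟨σ₀, h2, fun σ => ?_⟩
  rw [norm_mul, norm_inv, inv_mul_le_iff₀ h3, mul_one]
  exact hmax σ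

end gen

variable {i₀ : QB} (hi : i₀ ^ 2 = -1)

/-- a character with values in the field `A` that is trivial modulo the maximal ideal and whose
quadratic part is given by `√m` -/
structure ChiF (A : Subfield FF) (X : GK i₀ →* FF) (m : ZI) (r : QB) (ρ : ℝ) : Prop where
  cont : Continuous X
  mem : ∀ σ, X σ ∈ A
  pos : 0 < ρ
  lt : ρ < 1
  hr : r ^ 2 = ev i₀ hi m
  one : ∀ σ : GK i₀, σ r = r → ‖X σ - 1‖ < ρ
  neg : ∀ σ : GK i₀, σ r = -r → ‖X σ - 1‖ = ρ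
  unr : ∀ (p : ℕ) [Fact p.Prime] (ι : QB →ₐ[ℚ] PadicAlgCl p), p ≠ 2 →
    (∀ σ ∈ (II ι : Set (GK i₀)), σ r = r) → ∀ σ ∈ (II ι : Set (GK i₀)), X σ = 1

variable {A : Subfield FF} {X : GK i₀ →* FF} {m : ZI} {r : QB} {ρ : ℝ}

lemma ChiF.le (cd : ChiF hi A X m r ρ) (σ : GK i₀) : ‖X σ - 1‖ ≤ ρ := by
  rcases rt_or hi cd.hr σ with h | h
  · exact (cd.one σ h).le
  · exact (cd.neg σ h).le

lemma ChiF.iff (cd : ChiF hi A X m r ρ) (σ : GK i₀) : ‖X σ - 1‖ < ρ ↔ σ r = r := by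
  constructor
  · intro h
    rcases rt_or hi cd.hr σ with h1 | h1
    · exact h1
    · rw [cd.neg σ h1] at h
      exact absurd h (lt_irrefl _)
  · exact cd.one σ

/-- the conclusion of the local analysis -/
lemma loc_dichF (cd : ChiF hi A X m r ρ) {c : GK i₀ → FF} (hc1 : ∀ σ, ‖c σ‖ ≤ 1)
    {D : Set (GK i₀)} (hD : CobF X D c) {σ₀ : GK i₀} (h0 : σ₀ ∈ D) (h2 : σ₀ r = -r) {δ : ZI}
    {s : QB} (hs : s ^ 2 = ev i₀ hi δ) (hk : ∀ σ : GK i₀, σ s = s ↔ mdF c σ = 0) :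
    (∀ σ ∈ D, σ s = s) ∨ ∀ σ ∈ D, σ (s * r) = s * r := by
  rcases loc_fourF cd.pos (cd.le hi) hD hc1 h0 (cd.neg σ₀ h2) with h3 | h3
  · left
    intro σ hσ
    exact (hk σ).2 (h3 σ hσ)
  · right
    intro σ hσ
    have h4 := h3 σ hσ
    rw [← hk σ, cd.iff hi] at h4
    rw [map_mul]
    rcases rt_or hi cd.hr σ with h5 | h5
    · rw [h5, h4.2 h5]
    · rcases rt_or hi hs σ with h6 | h6
      · rw [h6, h4.1 h6]
      · rw [h5, h6]
        ring

/-- the cocycle is trivial on an unramified inertia group -/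
lemma unramF (cd : ChiF hi A X m r ρ) {c : GK i₀ → FF} {p : ℕ} [Fact p.Prime] (hp : p ≠ 2)
    {ι : QB →ₐ[ℚ] PadicAlgCl p} (hD : CobF X (II ι) c)
    (hm : ¬ ‖ev (ι i₀) (iota_sq hi ι) m‖ < 1) : ∀ σ ∈ (II ι : Set (GK i₀)), mdF c σ = 0 := by
  refine loc_trivF hD (cd.unr p ι hp ?_)
  rintro σ ⟨τ, hτ, hin⟩
  have h1 : (ι r) ^ 2 = ev (ι i₀) (iota_sq hi ι) m := by rw [← map_pow, cd.hr, iota_ev]
  have h2 : τ (ι r) = ι r := fix_of_unit (iota_sq hi ι) hp h1 hm hin hτ.fix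
  apply ι.injective
  show ι (σ r) = ι r
  rw [← hτ, h2]

/-- an element of the inertia group of a prime divisor that moves `√m` -/
lemma exists_ramF (cd : ChiF hi A X m r ρ) (hm : Squarefree m) {q : ZI} (hq : Prime q) (hqm : q ∣ m)
    {p : ℕ} [Fact p.Prime] (hp : p ≠ 2) {ι : QB →ₐ[ℚ] PadicAlgCl p}
    (hι : ‖ev (ι i₀) (iota_sq hi ι) q‖ < 1) :
    ∃ σ ∈ (II ι : Set (GK i₀)), σ r = -r := by
  by_contra hcon
  push Not at hcon
  refine not_dvd_of_fix (iota_sq hi ι) hp hq hι hm (s := ι r) ?_ ?_ hqm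
  · rw [← map_pow, cd.hr, iota_ev]
  · intro τ hin hτ
    refine fix_I (fun σ hσ => ?_) τ hin hτ
    rcases rt_or hi cd.hr σ with h | h
    · exact h
    · exact absurd h (hcon σ hσ)

/-- the local condition at a prime divisor of `m` -/
lemma loc_qF (cd : ChiF hi A X m r ρ) (hm : Squarefree m) {c : GK i₀ → FF} (hc : CocA A X c)
    (hc1 : ∀ σ, ‖c σ‖ ≤ 1) {q m1 : ZI} (hq : Prime q) (hmq : m = q * m1)
    {p : ℕ} [Fact p.Prime] (hp : p ≠ 2) {ι : QB →ₐ[ℚ] PadicAlgCl p}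
    (hι : ‖ev (ι i₀) (iota_sq hi ι) q‖ < 1) (hD : CobF X (II ι) c) {δ : ZI}
    (hδ : Squarefree δ) {s : QB} (hs : s ^ 2 = ev i₀ hi δ)
    (hk : ∀ σ : GK i₀, σ s = s ↔ mdF c σ = 0) :
    (¬ q ∣ δ ∧ Sqm q δ) ∨ ∃ δ1, δ = q * δ1 ∧ Sqm q (δ1 * m1) := by
  have hI := iota_sq hi ι
  have hqm1 : ¬ q ∣ m1 := by
    rintro ⟨w, hw⟩
    exact hq.not_isUnit (hm q ⟨w, by rw [hmq, hw]; ring⟩)
  obtain ⟨σ₀, h0, h2⟩ := exists_ramF hi cd hm hq (by rw [hmq]; exact dvd_mul_right _ _) hp hι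
  have hχ : X σ₀ ≠ 1 := by
    intro h
    have h1 := cd.neg σ₀ h2
    rw [h, sub_self, norm_zero] at h1
    exact cd.pos.ne h1
  have hD' : CobF X (DD ι) c := dec_of_inertF hc.mul hD h0 hχ fun τ hτ => conj_mem h0 hτ
  have hsq : (ι s) ^ 2 = ev (ι i₀) hI δ := by rw [← map_pow, hs, iota_ev]
  rcases loc_dichF hi cd hc1 hD' (II_sub h0) h2 hs hk with h | h
  · left
    refine ⟨not_dvd_of_fix hI hp hq hι hδ hsq fun τ _ hτ => fix_D h τ hτ, ?_⟩
    exact resid hI hp hq hι hsq (fix_D h)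
  · right
    have hsr : (s * r) ^ 2 = ev i₀ hi (δ * m) := by rw [mul_pow, hs, cd.hr, map_mul]
    have hdv : q ∣ δ := by
      by_contra hcon
      refine no_simple hI hp hq hι (t := δ * m1) (s := ι (s * r))
        (fun h => (hq.dvd_or_dvd h).elim hcon hqm1) ?_ fun τ _ hτ => fix_D h τ hτ
      rw [← map_pow, hsr, iota_ev, hmq]
      congr 1
      ring
    obtain ⟨δ1, hδ1⟩ := hdv
    refine ⟨δ1, hδ1, ?_⟩
    have hq0 : ev (ι i₀) hI q ≠ 0 := ev_ne _ hq.ne_zero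
    refine resid hI hp hq hι (y := ι (s * r) / ev (ι i₀) hI q) ?_ ?_
    · rw [div_pow, ← map_pow, hsr, iota_ev, hδ1, hmq, div_eq_iff (pow_ne_zero _ hq0), ← map_pow,
        ← map_mul]
      congr 1
      ring
    · intro τ hτ
      rw [map_div₀, fix_D h τ hτ, ev_fix hI hτ]

end Pool.Agent.D0H43.SC
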