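import Pool.Agent.D0H43.SC.Chi

/-!
# The vanishing of the Selmer groups of the characters with values in `ℚ_2(ζ)`
-/

set_option autoImplicit false
set_option linter.unusedSectionVars false

namespace Pool.Agent.D0H43.SC

open H385 (ZI im1 nrm)
open Pool.Agent.Y715.Red Pool.Agent.Y715.Nr Pool.Agent.Y715.Gi
open Pool.Agent.Y715.Df (Cmp exists_cmp exists_emb)
open Pool.Agent.Y715.Lc (norm_two_odd fix_of_unit resid)
open Pool.Agent.Y715.Sel (iota_sq iota_ev exists_emb2 not_dvd_of_unr odd_of)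
open Pool.Agent.Y715.Qr (Sqm)
open Pool.Agent.R384 (II DD conj_mem fix_D fix_I II_sub)
open Pool.Agent.H304R2.EC.A1 (prim prim_mul prim_one prim_ne_zero)
open Pool.Agent.Y699 (PP)
open Pool.Agent.D0H43.SG (no_simple rt_or sqm_sq sqm_neg lam_not_prim prim_prod dvd_prod_iff fac Crit
  at_lam)

variable {i₀ : QB} (hi : i₀ ^ 2 = -1) {A : Subfield FF} {X : GK i₀ →* FF} {m : ZI} {r : QB} {ρ : ℝ}

/-- **The vanishing.** -/
theorem vanishF (hA : Rs A) (cd : ChiF hi A X m r ρ) {J : Type} [Fintype J] [DecidableEq J] {π : J → ZI}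
    (hpp : ∀ j, PP (π j)) (hinj : Function.Injective π) {u : ZI} (hu : IsUnit u) {b : ℕ}
    (hb : b ≤ 1) (hm : m = u * lam ^ b * ∏ j, π j) (hC : Crit u b π)
    {c : GK i₀ → FF} (hc : CocA A X c)
    (hodd : ∀ (p : ℕ) [Fact p.Prime] (ι : QB →ₐ[ℚ] PadicAlgCl p), p ≠ 2 →
      CobF X (II ι : Set (GK i₀)) c)
    (htwo : ∀ ι : QB →ₐ[ℚ] PadicAlgCl 2, CobF X (DD ι : Set (GK i₀)) c) :
    ∃ y : FF, ∀ σ, c σ = (X σ - 1) * y := by
  classical
  -- `m` is squarefree
  have hlamπ : ∀ j, ¬ Associated (π j) lam := fun j h => lam_not_prim (hpp j).prm h.symm.dvd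
  have hP1 : ∀ S : Finset J, ¬ lam ∣ ∏ j ∈ S, π j := fun S => lam_not_prim (prim_prod hpp S)
  have hnl : ∀ ρ : ZI, Prime ρ → ρ ∣ m → Associated ρ lam ∨ ∃ j, Associated ρ (π j) := by
    intro ρ hρ h
    rw [hm] at h
    rcases hρ.dvd_or_dvd h with h | h
    · rcases hρ.dvd_or_dvd h with h | h
      · exact absurd (isUnit_of_dvd_unit h hu) hρ.not_isUnit
      · exact Or.inl ((hρ.dvd_prime_iff_associated prime_lam).1 (hρ.dvd_of_dvd_pow h))
    · obtain ⟨j, -, hj⟩ := (hρ.dvd_finsetProd_iff _).1 h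
      exact Or.inr ⟨j, (hρ.dvd_prime_iff_associated (hpp j).pr).1 hj⟩
  have hP0 : ∀ S : Finset J, ∏ j ∈ S, π j ≠ 0 := fun S => prim_ne_zero (prim_prod hpp S)
  have hmsq : Squarefree m := by
    have hsp : Squarefree (∏ j, π j) := by
      refine Finset.squarefree_prod_of_pairwise_isCoprime (fun i _ j _ hij => ?_) fun j _ =>
        (hpp j).pr.irreducible.squarefree
      exact ((hpp i).cop (hpp j) (hinj.ne hij)).isRelPrime
    have hsl : Squarefree (lam ^ b : ZI) := by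
      rcases (show b = 0 ∨ b = 1 by omega) with rfl | rfl
      · rw [pow_zero]; exact squarefree_one
      · rw [pow_one]; exact prime_lam.irreducible.squarefree
    have hrel : IsRelPrime (lam ^ b : ZI) (∏ j, π j) := by
      refine IsRelPrime.pow_left ?_
      exact ((prime_lam.irreducible.coprime_iff_not_dvd).2 (hP1 _)).isRelPrime
    have h1 : Squarefree (lam ^ b * ∏ j, π j : ZI) := _root_.squarefree_mul_iff.2 ⟨hrel, hsl, hsp⟩
    have h2 : Associated m (lam ^ b * ∏ j, π j) := by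
      rw [hm, mul_assoc]
      exact (associated_isUnit_mul_left_iff hu).2 (Associated.refl _)
    exact (h2.squarefree_iff).2 h1
  obtain ⟨ι⟩ := exists_emb2
  have hI := iota_sq hi ι
  obtain ⟨y, hyA, hy⟩ := (htwo ι).memA cd.mem hc.mem
  refine ⟨y, ?_⟩
  by_contra hcon
  push Not at hcon
  obtain ⟨σ₁, hσ₁⟩ := hcon
  -- the cocycle which vanishes on the decomposition group
  have hc1 : CocA A X (fun σ => 1 * c σ + (X σ - 1) * (-y)) :=
    hc.twist cd.cont cd.mem A.one_mem (A.neg_mem hyA)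
  set c₁ : GK i₀ → FF := fun σ => 1 * c σ + (X σ - 1) * (-y) with hc₁
  obtain ⟨σ₀, ha0, hint0⟩ := exists_scaleF hc1.cont (σ₁ := σ₁) (by
    intro h
    apply hσ₁
    rw [hc₁] at h
    linear_combination h)
  set a : FF := (c₁ σ₀)⁻¹ with ha'
  have haA : a ∈ A := A.inv_mem (hc1.mem σ₀)
  have hσ₀ : a * c₁ σ₀ = 1 := inv_mul_cancel₀ ha0
  have hcc : CocA A X (fun σ => a * c₁ σ + (X σ - 1) * 0) := hc1.twist cd.cont cd.mem haA A.zero_mem
  set c' : GK i₀ → FF := fun σ => a * c₁ σ + (X σ - 1) * 0 with hc'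
  have hint : ∀ σ, ‖c' σ‖ ≤ 1 := by
    intro σ
    rw [hc']
    simp only [mul_zero, add_zero]
    exact hint0 σ
  have hone : c' σ₀ = 1 := by
    rw [hc']
    simp only [mul_zero, add_zero]
    exact hσ₀
  have hodd' : ∀ (p : ℕ) [Fact p.Prime] (ι : QB →ₐ[ℚ] PadicAlgCl p), p ≠ 2 →
      CobF X (II ι : Set (GK i₀)) c' := fun p _ κ hp => ((hodd p κ hp).twist 1 (-y)).twist a 0
  have hstr' : ∀ σ ∈ (DD ι : Set (GK i₀)), c' σ = 0 := by
    intro σ hσ
    rw [hc', hc₁]
    simp only [hy σ hσ]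
    ring
  have hmd : ∀ σ, c' σ = 0 → mdF c' σ = 0 := fun σ h => mdF_zero.2 (by rw [h, norm_zero]; norm_num)
  -- the quadratic character
  obtain ⟨z, hz, hzh⟩ := kum hi (mdF c') (mdF_cont hcc)
    (mdF_mul hA (fun σ => lt_of_le_of_lt (cd.le hi σ) cd.lt) hcc hint)
  obtain ⟨s, hs⟩ := IsAlgClosed.exists_pow_nat_eq (ev i₀ hi z) (n := 2) (by norm_num)
  have hk : ∀ σ : GK i₀, σ s = s ↔ mdF c' σ = 0 := hzh s hs
  have hsD : ∀ σ ∈ (DD ι : Set (GK i₀)), σ s = s := fun σ hσ => (hk σ).2 (hmd σ (hstr' σ hσ))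
  have hse : (ι s) ^ 2 = ev (ι i₀) hI z := by rw [← map_pow, hs, iota_ev]
  have hlz : ¬ lam ∣ z := not_dvd_two hI hz hse fun τ _ hτ => fix_D hsD τ hτ
  have hsup : ∀ ρ : ZI, Prime ρ → ρ ∣ z → Associated ρ lam ∨ ∃ j, Associated ρ (π j) := by
    intro ρ hρ hd
    by_contra hcon
    push Not at hcon
    obtain ⟨p, hp, κ, hl⟩ := exists_emb hi hρ
    have hp2 := odd_of hi κ hρ hl hcon.1
    have hl' : ‖ev (κ i₀) (iota_sq hi κ) ρ‖ < 1 := by rwa [iota_ev] at hl
    refine not_dvd_of_unr hz hzh hp2 κ hρ hl (fun τ σ hc hτ => ?_) hd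
    refine unramF hi cd hp2 (hodd' p κ hp2) ?_ σ ⟨τ, hc, hτ⟩
    rw [← dvd_iff (iota_sq hi κ) hρ hl']
    intro h
    rcases hnl ρ hρ h with h1 | ⟨j, h1⟩
    · exact hcon.1 h1
    · exact hcon.2 j h1
  obtain ⟨u', T, hu', hT, hzT⟩ := fac hpp hinj hz hlz hsup
  obtain ⟨hupm, h4l⟩ := at_lam hI (prim_prod hpp T) hu' (s := ι s) (by rw [hse, hzT])
    fun τ hτ => fix_D hsD τ hτ
  have hTe : T = ∅ := by
    have main : ∀ j, (¬ π j ∣ z ∧ Sqm (π j) z) ∨ ∃ δ1, z = π j * δ1 ∧
        Sqm (π j) (δ1 * (u * lam ^ b * ∏ i ∈ Finset.univ.erase j, π i)) := by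
      intro j
      obtain ⟨p, hp, κ, hl⟩ := exists_emb hi (hpp j).pr
      have hp2 := odd_of hi κ (hpp j).pr hl (hlamπ j)
      have hl' : ‖ev (κ i₀) (iota_sq hi κ) (π j)‖ < 1 := by rwa [iota_ev] at hl
      refine loc_qF hi cd hmsq hcc hint (hpp j).pr ?_ hp2 hl' (hodd' p κ hp2) hz hs hk
      rw [hm, ← Finset.mul_prod_erase Finset.univ π (Finset.mem_univ j)]
      ring
    refine hC T h4l ?_ ?_
    · intro j hj
      rcases main j with ⟨-, h2⟩ | ⟨δ1, h1, -⟩
      · rw [hzT] at h2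
        rcases hupm with rfl | rfl
        · rwa [one_mul] at h2
        · rw [neg_one_mul] at h2
          exact sqm_neg h2
      · exact absurd ((hT j).2 ⟨δ1, h1⟩) hj
    · intro j hj
      rcases main j with ⟨h1, -⟩ | ⟨δ1, h1, h2⟩
      · exact absurd ((hT j).1 hj) h1
      · have hδ : δ1 = u' * ∏ i ∈ T.erase j, π i := by
          have h3 : π j * δ1 = π j * (u' * ∏ i ∈ T.erase j, π i) := by
            rw [← h1, hzT, ← Finset.mul_prod_erase T π hj]
            ring
          exact mul_left_cancel₀ (hpp j).pr.ne_zero h3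
        have hun : ∏ i ∈ Finset.univ.erase j, π i = (∏ i ∈ T.erase j, π i) * ∏ i ∈ Tᶜ, π i := by
          rw [← Finset.prod_union]
          · congr 1
            ext i
            simp only [Finset.mem_erase, Finset.mem_univ, and_true, Finset.mem_union,
              Finset.mem_compl]
            constructor
            · intro h
              by_cases h4 : i ∈ T
              · exact Or.inl ⟨h, h4⟩
              · exact Or.inr h4
            · rintro (h | h)
              · exact h.1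
              · rintro rfl
                exact h hj
          · rw [Finset.disjoint_left]
            intro i h3 h4
            exact (Finset.mem_compl.1 h4) (Finset.mem_of_mem_erase h3)
        have hnd : ¬ π j ∣ ∏ i ∈ T.erase j, π i := by
          rw [dvd_prod_iff hpp hinj]
          exact Finset.notMem_erase j T
        rw [hδ, hun] at h2
        have h5 : Sqm (π j) ((∏ i ∈ T.erase j, π i) ^ 2 * (u' * (u * lam ^ b * ∏ i ∈ Tᶜ, π i))) := by
          have e : u' * (∏ i ∈ T.erase j, π i) *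
              (u * lam ^ b * ((∏ i ∈ T.erase j, π i) * ∏ i ∈ Tᶜ, π i)) =
              (∏ i ∈ T.erase j, π i) ^ 2 * (u' * (u * lam ^ b * ∏ i ∈ Tᶜ, π i)) := by ring
          rwa [e] at h2
        have h6 := sqm_sq (hpp j).pr hnd h5
        rcases hupm with rfl | rfl
        · rwa [one_mul] at h6
        · rw [neg_one_mul] at h6
          exact sqm_neg h6
  have hsfix : ∀ σ : GK i₀, σ s = s := by
    have h1 : s ^ 2 = 1 ∨ s ^ 2 = i₀ ^ 2 := by
      rw [hzT, hTe, Finset.prod_empty, mul_one] at hs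
      rcases hupm with rfl | rfl
      · left; rw [hs, map_one]
      · right; rw [hs, map_neg, map_one, hi]
    intro σ
    rcases h1 with h1 | h1
    · rcases sq_eq_one_iff.1 h1 with h4 | h4
      · rw [h4, map_one]
      · rw [h4, map_neg, map_one]
    · rcases sq_eq_sq_iff_eq_or_eq_neg.1 h1 with h4 | h4
      · rw [h4, gk_fix]
      · rw [h4, map_neg, gk_fix]
  have h5 : ‖c' σ₀‖ < 1 := mdF_zero.1 ((hk σ₀).1 (hsfix σ₀))
  rw [hone, norm_one] at h5
  exact lt_irrefl _ h5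

end Pool.Agent.D0H43.SC
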