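import Pool.Agent.D0H43.SG.Mq
import Pool.Agent.D0H43.SC.Van

/-!
# The powers of the cyclotomic character over cyclic extensions of `ℚ(i)` of degree a power of two
-/

set_option autoImplicit false
set_option linter.unusedSectionVars false

namespace Pool.Agent.D0H43.SC

open H385 (ZI im1 nrm)
open Pool.Agent.Y715.Red Pool.Agent.Y715.Nr Pool.Agent.Y715.Gi
open Pool.Agent.Y715.Df (Cmp exists_cmp exists_emb)
open Pool.Agent.Y715.Sel (iota_sq iota_ev exists_emb2)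
open Pool.Agent.R384 (II DD IIs DDs cι II_conj DD_conj II_sub vl norm_of_four cyc cyc_cont cyc_spec
  cyc_four cyc_inert)
open Pool.Agent.H304R2.EC.A1 (prim prim_mul prim_one prim_ne_zero)
open Pool.Agent.Y699 (PP)
open Pool.Agent.D0H43.SG (no_simple rt_or Ok ok_unit Crit ne_neg)

variable {i₀ : QB} (hi : i₀ ^ 2 = -1)

/-! ### The step -/

/-- the Selmer group over the field fixed by `H` is zero -/
def VanF (A : Subfield FF) (X : GK i₀ →* FF) (H : Subgroup (GK i₀)) : Prop :=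
  ∀ c : GK i₀ → FF, CocF A X H c →
    (∀ (p : ℕ) [Fact p.Prime] (ι : QB →ₐ[ℚ] PadicAlgCl p), p ≠ 2 →
      ∃ y : FF, ∀ σ ∈ (II ι : Set (GK i₀)), σ ∈ H → c σ = (X σ - 1) * y) →
    (∀ ι : QB →ₐ[ℚ] PadicAlgCl 2,
      ∃ y : FF, ∀ σ ∈ (DD ι : Set (GK i₀)), σ ∈ H → c σ = (X σ - 1) * y) →
    ∃ y : FF, ∀ σ ∈ H, c σ = (X σ - 1) * y

/-- **The step.** -/
theorem VanF.step {A : Subfield FF} {X ψ : GK i₀ →* FF} {G' : Subgroup (GK i₀)}
    (hXA : ∀ σ, X σ ∈ A) (hψA : ∀ σ, ψ σ ∈ A) (hψ : ∀ σ ∈ G', ψ σ = 1 ∨ ψ σ = -1)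
    (hop : ∀ u : FF, IsOpen {g | ψ g = u}) (h1 : VanF A X G')
    (h2 : VanF A (X * ψ) G') : VanF A X (krF ψ G') := by
  by_cases hG : ∃ t ∈ G', ψ t = -1
  · obtain ⟨t, ht, hε⟩ := hG
    intro c hc hodd hstr
    have hpos : ∀ {σ : GK i₀}, ψ σ = 1 → (X * ψ) σ = X σ := fun h => by
      rw [MonoidHom.mul_apply, h, mul_one]
    have hc' : ∀ σ ∈ krF ψ G', ∀ τ ∈ krF ψ G', c (σ * τ) = c σ + (X * ψ) σ * c τ := by
      intro σ hσ τ hτ
      rw [hpos (mem_krF.1 hσ).2]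
      exact hc.mul σ hσ τ hτ
    have hXψ : ∀ σ, (X * ψ) σ ∈ A := fun σ => A.mul_mem (hXA σ) (hψA σ)
    obtain ⟨y₁, hy₁⟩ := h1 (corF X ψ t c) ⟨cor_cont hψ ht hε hop hc.cont,
        fun σ hσ τ hτ => cor_mul hψ ht hε hc.mul hσ hτ, fun σ hσ =>
          cor_mem hψ ht hε hXA hc.mem hσ⟩ (by
      intro p _ ι hp
      obtain ⟨y, hy⟩ := hodd p ι hp
      obtain ⟨y', hy'⟩ := hodd p (cι ι t) hp
      exact cor_loc (I := IIs ι) hψ ht hε hc.mul (fun σ h3 h4 => hy σ h3 h4) (fun σ h3 h4 => by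
        rw [hy' _ (II_conj h3) (conj_kr ht hε h4), X_conj])) (by
      intro ι
      obtain ⟨y, hy⟩ := hstr ι
      obtain ⟨y', hy'⟩ := hstr (cι ι t)
      exact cor_loc (I := DDs ι) hψ ht hε hc.mul (fun σ h3 h4 => hy σ h3 h4) (fun σ h3 h4 => by
        rw [hy' _ (DD_conj h3) (conj_kr ht hε h4), X_conj]))
    obtain ⟨y₂, hy₂⟩ := h2 (corF (X * ψ) ψ t c) ⟨cor_cont hψ ht hε hop hc.cont,
        fun σ hσ τ hτ => cor_mul hψ ht hε hc' hσ hτ, fun σ hσ =>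
          cor_mem hψ ht hε hXψ hc.mem hσ⟩ (by
      intro p _ ι hp
      obtain ⟨y, hy⟩ := hodd p ι hp
      obtain ⟨y', hy'⟩ := hodd p (cι ι t) hp
      exact cor_loc (I := IIs ι) hψ ht hε hc' (fun σ h3 h4 => by
        rw [hpos (mem_krF.1 h4).2]
        exact hy σ h3 h4) (fun σ h3 h4 => by
        rw [hpos (mem_krF.1 h4).2, hy' _ (II_conj h3) (conj_kr ht hε h4), X_conj])) (by
      intro ι
      obtain ⟨y, hy⟩ := hstr ι
      obtain ⟨y', hy'⟩ := hstr (cι ι t)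
      exact cor_loc (I := DDs ι) hψ ht hε hc' (fun σ h3 h4 => by
        rw [hpos (mem_krF.1 h4).2]
        exact hy σ h3 h4) (fun σ h3 h4 => by
        rw [hpos (mem_krF.1 h4).2, hy' _ (DD_conj h3) (conj_kr ht hε h4), X_conj]))
    refine ⟨(y₁ + y₂) / 2, fun σ hσ => ?_⟩
    obtain ⟨g1, g2⟩ := mem_krF.1 hσ
    have e1 := hy₁ σ g1
    have e2 := hy₂ σ g1
    unfold corF at e1 e2
    rw [if_pos g2] at e1 e2
    rw [hpos g2, MonoidHom.mul_apply, hε] at e2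
    have h2 : (2 : FF) ≠ 0 := two_ne_zero
    field_simp
    linear_combination e1 + e2
  · push Not at hG
    have e : krF ψ G' = G' := by
      ext σ
      constructor
      · exact fun h => (mem_krF.1 h).1
      · intro h
        refine mem_krF.2 ⟨h, ?_⟩
        rcases hψ σ h with h3 | h3
        · exact h3
        · exact absurd h3 (hG σ h)
    rwa [e]

theorem van_topF {A : Subfield FF} {X : GK i₀ →* FF} {m : ZI} {r : QB} {ρ : ℝ} (hA : Rs A)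
    (cd : ChiF hi A X m r ρ) (hm : Ok m) : VanF A X ⊤ := by
  obtain ⟨J, _, _, π, u, b, hpp, hinj, hu, hb, hm, hC⟩ := hm
  intro c hc hodd htwo
  obtain ⟨y, hy⟩ := vanishF hi hA cd hpp hinj hu hb hm hC (c := c)
    ⟨continuousOn_univ.1 (by simpa using hc.cont), fun σ τ =>
      hc.mul σ (Subgroup.mem_top σ) τ (Subgroup.mem_top τ), fun σ => hc.mem σ (Subgroup.mem_top σ)⟩
      (fun p _ ι hp => by
      obtain ⟨y, hy⟩ := hodd p ι hp
      exact ⟨y, fun σ hσ => hy σ hσ (Subgroup.mem_top σ)⟩) (fun ι => by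
      obtain ⟨y, hy⟩ := htwo ι
      exact ⟨y, fun σ hσ => hy σ hσ (Subgroup.mem_top σ)⟩)
  exact ⟨y, fun σ _ => hy σ⟩

/-! ### Norms of roots of unity -/

lemma pow_sub_le {w : FF} (hw : ‖w‖ ≤ 1) : ∀ k : ℕ, ‖w ^ k - 1‖ ≤ ‖w - 1‖ := by
  intro k
  induction k with
  | zero => rw [pow_zero, sub_self, norm_zero]; exact norm_nonneg _
  | succ k ih =>
    have e : w ^ (k + 1) - 1 = w * (w ^ k - 1) + (w - 1) := by ring
    rw [e]
    refine nadd' ?_ le_rfl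
    rw [norm_mul]
    calc ‖w‖ * ‖w ^ k - 1‖ ≤ 1 * ‖w ^ k - 1‖ := mul_le_mul_of_nonneg_right hw (norm_nonneg _)
      _ ≤ ‖w - 1‖ := by rw [one_mul]; exact ih

section rt

variable {n : ℕ} {w : FF} (hw : w ^ 2 ^ n = 1)

include hw

lemma norm_w : ‖w‖ = 1 := by
  have h := congrArg norm hw
  rw [norm_pow, norm_one] at h
  exact (pow_eq_one_iff_of_nonneg (norm_nonneg _) (by positivity)).1 h

lemma exists_neg (h1 : w ≠ 1) : ∃ j : ℕ, w ^ 2 ^ j = -1 := by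
  classical
  have hex : ∃ k, w ^ 2 ^ k = 1 := ⟨n, hw⟩
  have h2 := Nat.find_spec hex
  have h3 : Nat.find hex ≠ 0 := by
    intro h0
    rw [h0, pow_zero, pow_one] at h2
    exact h1 h2
  obtain ⟨j, hj⟩ := Nat.exists_eq_succ_of_ne_zero h3
  refine ⟨j, ?_⟩
  have h4 : ¬ w ^ 2 ^ j = 1 := Nat.find_min hex (by omega)
  rw [hj, Nat.succ_eq_add_one, pow_succ, pow_mul] at h2
  rcases sq_eq_one_iff.1 h2 with h5 | h5
  · exact absurd h5 h4
  · exact h5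

lemma half_le (h1 : w ≠ 1) : 1 / 2 ≤ ‖w - 1‖ := by
  obtain ⟨j, hj⟩ := exists_neg hw h1
  have h2 := pow_sub_le (norm_w hw).le (2 ^ j)
  have e : (-1 : FF) - 1 = -2 := by ring
  rw [hj, e, norm_neg, two_norm] at h2
  exact h2

lemma w_lt : ‖w - 1‖ < 1 := by
  by_cases h1 : w = 1
  · rw [h1, sub_self, norm_zero]
    norm_num
  · obtain ⟨j, hj⟩ := exists_neg hw h1
    exact rho_lt hj

lemma odd_eq {k : ℕ} (hk : ¬ Even k) : ‖w ^ k - 1‖ = ‖w - 1‖ := by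
  refine le_antisymm (pow_sub_le (norm_w hw).le k) ?_
  have hcop : Nat.Coprime k (2 ^ n) := by
    refine Nat.Coprime.pow_right n ?_
    exact (Nat.coprime_two_right.2 (Nat.not_even_iff_odd.1 hk))
  obtain ⟨l, hl⟩ : ∃ l : ℕ, (w ^ k) ^ l = w := by
    rcases Nat.eq_zero_or_pos n with h0 | hn
    · refine ⟨1, ?_⟩
      rw [h0, pow_zero, pow_one] at hw
      rw [hw, one_pow, one_pow]
    · obtain ⟨l, hl⟩ := Nat.exists_mul_mod_eq_one_of_coprime hcop (Nat.one_lt_two_pow hn.ne')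
      refine ⟨l, ?_⟩
      rw [← pow_mul]
      have e : k * l = 2 ^ n * (k * l / 2 ^ n) + 1 := by
        have := Nat.div_add_mod (k * l) (2 ^ n)
        rw [hl.2] at this
        exact this.symm
      rw [e, pow_add, pow_mul, hw, one_pow, one_mul, pow_one]
  have h1 := pow_sub_le (w := w ^ k) (by rw [norm_pow, norm_w hw, one_pow]) l
  rwa [hl] at h1

lemma even_lt (h1 : w ≠ 1) {k : ℕ} (hk : Even k) : ‖w ^ k - 1‖ < ‖w - 1‖ := by
  obtain ⟨l, rfl⟩ := hk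
  have e : w ^ (l + l) - 1 = (w ^ l - 1) * ((w ^ l - 1) + 2) := by ring
  rw [e, norm_mul]
  have h2 := pow_sub_le (norm_w hw).le l
  have h3 : ‖(w ^ l - 1) + 2‖ < 1 :=
    nadd (lt_of_le_of_lt h2 (w_lt hw)) (by rw [two_norm]; norm_num)
  have h4 : 0 < ‖w - 1‖ := lt_of_lt_of_le (by norm_num) (half_le hw h1)
  calc ‖w ^ l - 1‖ * ‖(w ^ l - 1) + 2‖ ≤ ‖w - 1‖ * ‖(w ^ l - 1) + 2‖ :=
        mul_le_mul_of_nonneg_right h2 (norm_nonneg _)
    _ < ‖w - 1‖ * 1 := mul_lt_mul_of_pos_left h3 h4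
    _ = ‖w - 1‖ := mul_one _

end rt

/-! ### The characters -/

/-- the powers of the cyclotomic character -/
noncomputable def kap (i₀ : QB) (k : ℤ) : GK i₀ →* FF :=
  ((algebraMap ℚ_[2] FF).toMonoidHom.comp (PadicInt.Coe.ringHom (p := 2)).toMonoidHom).comp
    ((Units.coeHom ℤ_[2]).comp (cyc i₀ ^ k))

lemma kap_apply (k : ℤ) (σ : GK i₀) : kap i₀ k σ = algebraMap ℚ_[2] FF (vl (cyc i₀ ^ k) σ) := rfl

lemma kap_cont (k : ℤ) : Continuous (kap i₀ k) := by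
  have h1 := Pool.Agent.R384.cont_vl (χ := cyc i₀ ^ k) ((cyc_cont i₀).zpow k)
  have h2 : Continuous (algebraMap ℚ_[2] FF) := by
    have : Isometry (algebraMap ℚ_[2] FF) := by
      refine AddMonoidHomClass.isometry_of_norm _ nq
    exact this.continuous
  exact h2.comp h1

include hi in
lemma kap_small (k : ℤ) (σ : GK i₀) : ‖kap i₀ k σ - 1‖ ≤ 1 / 4 := by
  have h1 := norm_of_four ((Pool.Agent.D0H43.SG.chi_cyc hi k).one σ (map_one σ))
  have e1 : (((((cyc i₀ ^ k) σ : ℤ_[2]ˣ) : ℤ_[2]) - 1 : ℤ_[2]) : ℚ_[2]) =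
      vl (cyc i₀ ^ k) σ - 1 := by
    unfold vl
    push_cast
    rfl
  rw [e1] at h1
  have e : kap i₀ k σ - 1 = algebraMap ℚ_[2] FF (vl (cyc i₀ ^ k) σ - 1) := by
    rw [kap_apply, map_sub, map_one]
  rw [e, nq]
  exact h1

lemma kap_norm (k : ℤ) (σ : GK i₀) : ‖kap i₀ k σ‖ = 1 := by
  rw [kap_apply, nq]
  exact Pool.Agent.R384.norm_vl σ

lemma kap_inert (k : ℤ) {p : ℕ} [Fact p.Prime] (hp : p ≠ 2) {ι : QB →ₐ[ℚ] PadicAlgCl p} {σ : GK i₀}
    (hσ : σ ∈ (II ι : Set (GK i₀))) : kap i₀ k σ = 1 := by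
  have h : (cyc i₀ ^ k) σ = 1 := by
    show (cyc i₀ σ) ^ k = 1
    rw [cyc_inert hp hσ, one_zpow]
  rw [kap_apply]
  unfold vl
  rw [h]
  simp

/-- a character of order `2 ^ (n + 1)` whose quadratic part is given by `√m` -/
structure Cy (ψ : GK i₀ →* FF) (n : ℕ) (ζ : FF) (m : ZI) (r : QB) : Prop where
  hζ : ζ ^ 2 ^ n = -1
  hr : r ^ 2 = ev i₀ hi m
  vals : ∀ σ : GK i₀, ∃ k : ℕ, ψ σ = ζ ^ k ∧ (Even k → σ r = r) ∧ (¬ Even k → σ r = -r)
  op : ∀ u : FF, IsOpen {g | ψ g = u}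
  unr : ∀ (p : ℕ) [Fact p.Prime] (ι : QB →ₐ[ℚ] PadicAlgCl p), p ≠ 2 →
    (∀ σ ∈ (II ι : Set (GK i₀)), σ r = r) → ∀ σ ∈ (II ι : Set (GK i₀)), ψ σ = 1

/-- the field `ℚ_2(ζ)` -/
noncomputable abbrev Az (ζ : FF) : Subfield FF := (IntermediateField.adjoin ℚ_[2] {ζ}).toSubfield

lemma algebraMap_mem (ζ : FF) (z : ℚ_[2]) : algebraMap ℚ_[2] FF z ∈ Az ζ :=
  (IntermediateField.adjoin ℚ_[2] {ζ}).algebraMap_mem z

lemma zeta_mem (ζ : FF) : ζ ∈ Az ζ := IntermediateField.mem_adjoin_simple_self ℚ_[2] ζ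

section cy

variable {ψ : GK i₀ →* FF} {n : ℕ} {ζ : FF} {m : ZI} {r : QB}

lemma cont_of_op (hop : ∀ u : FF, IsOpen {g | ψ g = u}) : Continuous ψ := by
  have h1 : IsLocallyConstant (fun g => ψ g) := (IsLocallyConstant.iff_isOpen_fiber).2 fun u => hop u
  exact h1.continuous

include hi in
/-- the trivial twist -/
theorem chi_zero {A : Subfield FF} (hA : ∀ z : ℚ_[2], algebraMap ℚ_[2] FF z ∈ A) (k : ℤ) :
    ChiF hi A (kap i₀ k) 1 1 (1 / 2) where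
  cont := kap_cont k
  mem σ := hA _
  pos := by norm_num
  lt := by norm_num
  hr := by rw [map_one, one_pow]
  one σ _ := lt_of_le_of_lt (kap_small hi k σ) (by norm_num)
  neg σ h := by
    rw [map_one] at h
    exact absurd h (ne_neg one_ne_zero)
  unr p _ ι hp _ σ hσ := kap_inert k hp hσ

/-- the other twists -/
theorem Cy.chi (h : Cy hi ψ n ζ m r) (hr0 : r ≠ 0) (k : ℤ) {i : ℕ} (hw1 : ζ ^ i ≠ 1) :
    ChiF hi (Az ζ) (kap i₀ k * ψ ^ i) m r ‖ζ ^ i - 1‖ := by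
  have hζ1 : (ζ ^ i) ^ 2 ^ (n + 1) = 1 := by
    rw [← pow_mul, mul_comm, pow_mul, pow_succ, pow_mul, h.hζ]
    norm_num
  have hval : ∀ σ : GK i₀, ∃ k' : ℕ, (ψ ^ i) σ = (ζ ^ i) ^ k' ∧ (Even k' → σ r = r) ∧
      (¬ Even k' → σ r = -r) := by
    intro σ
    obtain ⟨k', h1, h2, h3⟩ := h.vals σ
    refine ⟨k', ?_, h2, h3⟩
    rw [MonoidHom.pow_apply, h1, ← pow_mul, ← pow_mul, mul_comm]
  have hpos : 0 < ‖ζ ^ i - 1‖ := lt_of_lt_of_le (by norm_num) (half_le hζ1 hw1)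
  have hhalf := half_le hζ1 hw1
  have e : ∀ σ : GK i₀, (kap i₀ k * ψ ^ i) σ - 1 =
      kap i₀ k σ * ((ψ ^ i) σ - 1) + (kap i₀ k σ - 1) := by
    intro σ
    rw [MonoidHom.mul_apply]
    ring
  have hn : ∀ σ : GK i₀, ‖kap i₀ k σ * ((ψ ^ i) σ - 1)‖ = ‖(ψ ^ i) σ - 1‖ := by
    intro σ
    rw [norm_mul, kap_norm, one_mul]
  refine ⟨?_, ?_, hpos, w_lt hζ1, h.hr, ?_, ?_, ?_⟩
  · have h1 := cont_of_op h.op
    have h2 := kap_cont (i₀ := i₀) k
    have e2 : ⇑(kap i₀ k * ψ ^ i) = fun σ => kap i₀ k σ * (ψ σ) ^ i := by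
      funext σ
      rw [MonoidHom.mul_apply, MonoidHom.pow_apply]
    rw [e2]
    fun_prop
  · intro σ
    rw [MonoidHom.mul_apply]
    refine (Az ζ).mul_mem (algebraMap_mem _ _) ?_
    obtain ⟨k', h1, -⟩ := hval σ
    rw [h1]
    exact (Az ζ).pow_mem ((Az ζ).pow_mem (zeta_mem ζ) _) _
  · intro σ hσ
    obtain ⟨k', h1, h2, h3⟩ := hval σ
    have hk : Even k' := by
      by_contra hcon
      have := h3 hcon
      rw [hσ] at this
      exact ne_neg hr0 this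
    rw [e]
    refine nadd ?_ (lt_of_le_of_lt (kap_small hi k σ) (by linarith))
    rw [hn, h1]
    exact even_lt hζ1 hw1 hk
  · intro σ hσ
    obtain ⟨k', h1, h2, h3⟩ := hval σ
    have hk : ¬ Even k' := by
      intro hcon
      have := h2 hcon
      rw [hσ] at this
      exact ne_neg hr0 this.symm
    have h4 : ‖kap i₀ k σ * ((ψ ^ i) σ - 1)‖ = ‖ζ ^ i - 1‖ := by
      rw [hn, h1]
      exact odd_eq hζ1 hk
    have h5 : ‖kap i₀ k σ - 1‖ < ‖ζ ^ i - 1‖ :=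
      lt_of_le_of_lt (kap_small hi k σ) (by linarith)
    rw [e, IsUltrametricDist.norm_add_eq_max_of_norm_ne_norm (by rw [h4]; exact h5.ne'), h4]
    exact max_eq_left h5.le
  · intro p _ ι hp hall σ hσ
    rw [MonoidHom.mul_apply, kap_inert k hp hσ, MonoidHom.pow_apply, h.unr p ι hp hall σ hσ, one_pow,
      one_mul]

/-- the vanishing for all the twists -/
theorem Cy.top (h : Cy hi ψ n ζ m r) (hr0 : r ≠ 0) (hm : Ok m) (k : ℤ) (i : ℕ) :
    VanF (Az ζ) (kap i₀ k * ψ ^ i) ⊤ := by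
  have hA : Rs (Az ζ) := rs h.hζ
  by_cases hw : ζ ^ i = 1
  · have e : kap i₀ k * ψ ^ i = kap i₀ k := by
      ext σ
      obtain ⟨k', h1, -⟩ := h.vals σ
      rw [MonoidHom.mul_apply, MonoidHom.pow_apply, h1, ← pow_mul, mul_comm k', pow_mul, hw,
        one_pow, mul_one]
    rw [e]
    exact van_topF hi hA (chi_zero hi (algebraMap_mem ζ) k) (ok_unit isUnit_one)
  · exact van_topF hi hA (h.chi hi hr0 k hw) hm

/-- **The vanishing theorem over cyclic extensions.** -/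
theorem Cy.van (h : Cy hi ψ n ζ m r) (hr0 : r ≠ 0) (hm : Ok m) (k : ℤ) :
    VanF (Az ζ) (kap i₀ k) ψ.ker := by
  have hp1 : ∀ σ : GK i₀, ψ σ ^ 2 ^ (n + 1) = 1 := by
    intro σ
    obtain ⟨k', h1, -⟩ := h.vals σ
    rw [h1, ← pow_mul, mul_comm, pow_mul, pow_succ, pow_mul, h.hζ]
    norm_num
  have hmemψ : ∀ (j : ℕ) (σ : GK i₀), (ψ ^ j) σ ∈ Az ζ := by
    intro j σ
    obtain ⟨k', h1, -⟩ := h.vals σ
    rw [MonoidHom.pow_apply, h1]
    exact (Az ζ).pow_mem ((Az ζ).pow_mem (zeta_mem ζ) _) _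
  have key : ∀ d : ℕ, d ≤ n + 1 → ∀ i : ℕ,
      VanF (Az ζ) (kap i₀ k * ψ ^ i) (ψ ^ 2 ^ (n + 1 - d)).ker := by
    intro d
    induction d with
    | zero =>
      intro _ i
      have e : (ψ ^ 2 ^ (n + 1 - 0)).ker = ⊤ := by
        ext σ
        refine ⟨fun _ => trivial, fun _ => ?_⟩
        rw [MonoidHom.mem_ker, MonoidHom.pow_apply]
        exact hp1 σ
      rw [e]
      exact h.top hi hr0 hm k i
    | succ d ih =>
      intro hd i
      have h1 := ih (by omega) i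
      have h2 := ih (by omega) (i + 2 ^ (n + 1 - (d + 1)))
      have e1 : kap i₀ k * ψ ^ (i + 2 ^ (n + 1 - (d + 1))) =
          kap i₀ k * ψ ^ i * ψ ^ 2 ^ (n + 1 - (d + 1)) := by
        rw [pow_add, mul_assoc]
      rw [e1] at h2
      have hs : n + 1 - d = (n + 1 - (d + 1)) + 1 := by omega
      have hψ : ∀ σ ∈ (ψ ^ 2 ^ (n + 1 - d)).ker,
          (ψ ^ 2 ^ (n + 1 - (d + 1))) σ = 1 ∨ (ψ ^ 2 ^ (n + 1 - (d + 1))) σ = -1 := by
        intro σ hσ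
        rw [MonoidHom.mem_ker, MonoidHom.pow_apply, hs, pow_succ, pow_mul] at hσ
        rw [MonoidHom.pow_apply]
        exact sq_eq_one_iff.1 hσ
      have e2 : (ψ ^ 2 ^ (n + 1 - (d + 1))).ker =
          krF (ψ ^ 2 ^ (n + 1 - (d + 1))) (ψ ^ 2 ^ (n + 1 - d)).ker := by
        ext σ
        rw [mem_krF]
        constructor
        · intro h3
          refine ⟨?_, h3⟩
          rw [MonoidHom.mem_ker, MonoidHom.pow_apply] at h3 ⊢
          rw [hs, pow_succ, pow_mul, h3, one_pow]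
        · exact fun h3 => h3.2
      rw [e2]
      refine VanF.step (fun σ => ?_) (hmemψ _) hψ ?_ h1 h2
      · rw [MonoidHom.mul_apply]
        exact (Az ζ).mul_mem (algebraMap_mem _ _) (hmemψ i σ)
      · intro u
        have h3 : IsLocallyConstant (fun g => ψ g) :=
          (IsLocallyConstant.iff_isOpen_fiber).2 fun u => h.op u
        have h4 : IsLocallyConstant (fun g => (ψ g) ^ 2 ^ (n + 1 - (d + 1))) :=
          h3.comp (fun u => u ^ 2 ^ (n + 1 - (d + 1)))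
        have h5 := (IsLocallyConstant.iff_isOpen_fiber).1 h4 u
        have e3 : {g | (ψ ^ 2 ^ (n + 1 - (d + 1))) g = u} =
            {g | (ψ g) ^ 2 ^ (n + 1 - (d + 1)) = u} := by
          ext g
          rw [Set.mem_setOf_eq, Set.mem_setOf_eq, MonoidHom.pow_apply]
        rw [e3]
        exact h5
  have h1 := key (n + 1) le_rfl 0
  rwa [Nat.sub_self, pow_zero, pow_zero, pow_one, mul_one] at h1

end cy

end Pool.Agent.D0H43.SC
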