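import Pool.Agent.D0H43.SC.Cyc

/-!
# The character of a cyclic extension
-/

set_option autoImplicit false
set_option linter.unusedSectionVars false

namespace Pool.Agent.D0H43.SC

open H385 (ZI im1 nrm)
open Pool.Agent.Y715.Red Pool.Agent.Y715.Nr Pool.Agent.Y715.Gi
open Pool.Agent.R384 (II DD)
open Pool.Agent.D0H43.SG (rt_or)
open scoped Pointwise

variable {i₀ : QB} (hi : i₀ ^ 2 = -1)

theorem exists_cy {L : IntermediateField (KK i₀) QB} [FiniteDimensional (KK i₀) L]
    [IsGalois (KK i₀) L] (hcyc : IsCyclic (L ≃ₐ[KK i₀] L)) {N : ℕ}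
    (hN : Module.finrank (KK i₀) L = 2 ^ N) {m : ZI} {r : QB} (hr : r ^ 2 = ev i₀ hi m)
    (hrL : r ∈ L) (hrK : ∃ σ : GK i₀, σ r ≠ r)
    (hunr : ∀ (p : ℕ) [Fact p.Prime] (ι : QB →ₐ[ℚ] PadicAlgCl p), p ≠ 2 →
      (∀ σ ∈ (II ι : Set (GK i₀)), σ r = r) → ∀ σ ∈ (II ι : Set (GK i₀)), ∀ x ∈ L, σ x = x) :
    ∃ (n : ℕ) (ζ : FF) (ψ : GK i₀ →* FF), Cy hi ψ n ζ m r ∧ ψ.ker = L.fixingSubgroup := by
  obtain ⟨g, hg⟩ := hcyc.exists_generator
  have hcard : Nat.card (L ≃ₐ[KK i₀] L) = 2 ^ N := by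
    rw [← hN]
    exact IsGalois.card_aut_eq_finrank _ _
  have hfinC : Finite (L ≃ₐ[KK i₀] L) := Nat.finite_of_card_ne_zero (by rw [hcard]; positivity)
  have hog : orderOf g = 2 ^ N := by
    rw [orderOf_eq_card_of_forall_mem_zpowers hg, hcard]
  set π : GK i₀ →* (L ≃ₐ[KK i₀] L) := AlgEquiv.restrictNormalHom L with hπ
  have hπa : ∀ (σ : GK i₀) (x : L), ((π σ x : L) : QB) = σ (x : QB) := fun σ x =>
    AlgEquiv.restrictNormal_commutes σ L x
  have hπk : π.ker = L.fixingSubgroup := IntermediateField.restrictNormalHom_ker L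
  have hmem : ∀ σ : GK i₀, ∃ k : ℕ, g ^ k = π σ := fun σ => by
    have h1 := mem_powers_iff_mem_zpowers.2 (hg (π σ))
    exact h1
  set rL : L := ⟨r, hrL⟩ with hrL'
  have hgr : g rL = -rL := by
    have h1 : (g rL) ^ 2 = rL ^ 2 := by
      obtain ⟨σ, hσ⟩ := AlgEquiv.restrictNormalHom_surjective (F := KK i₀) (K₁ := L) QB g
      apply Subtype.ext
      have h2 : ((g rL : L) : QB) = σ r := by
        rw [← hσ]
        exact hπa σ rL
      rw [SubmonoidClass.coe_pow, SubmonoidClass.coe_pow, h2, ← map_pow]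
      show σ (r ^ 2) = r ^ 2
      rw [hr, gk_ev]
    rcases sq_eq_sq_iff_eq_or_eq_neg.1 h1 with h | h
    · exfalso
      obtain ⟨σ, hσ⟩ := hrK
      apply hσ
      obtain ⟨k, hk⟩ := hmem σ
      have h3 : ∀ k : ℕ, (g ^ k) rL = rL := by
        intro k
        induction k with
        | zero => rfl
        | succ k ih => rw [pow_succ, AlgEquiv.mul_apply, h, ih]
      have h4 := hπa σ rL
      rw [← hk, h3] at h4
      exact h4.symm
    · exact h
  have hgk : ∀ k : ℕ, (g ^ k) rL = (-1) ^ k * rL := by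
    intro k
    induction k with
    | zero => simp
    | succ k ih => rw [pow_succ, AlgEquiv.mul_apply, hgr, map_neg, ih]; ring
  have hN0 : N ≠ 0 := by
    rintro rfl
    rw [pow_zero, orderOf_eq_one_iff] at hog
    rw [hog] at hgr
    have h1 : rL = -rL := hgr
    have h2 : r = -r := congrArg Subtype.val h1
    obtain ⟨σ, hσ⟩ := hrK
    apply hσ
    have h3 : r = 0 := by
      have h4 : (2 : QB) * r = 0 := by linear_combination h2
      exact (mul_eq_zero.1 h4).resolve_left two_ne_zero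
    rw [h3, map_zero]
  obtain ⟨n, rfl⟩ := Nat.exists_eq_succ_of_ne_zero hN0
  obtain ⟨ζ, hζ⟩ := IsAlgClosed.exists_pow_nat_eq (-1 : FF) (n := 2 ^ n) (by positivity)
  have hζ0 : ζ ≠ 0 := by
    rintro rfl
    rw [zero_pow (by positivity)] at hζ
    exact neg_ne_zero.2 one_ne_zero hζ.symm
  set ζu : FFˣ := Units.mk0 ζ hζ0 with hζu
  have hoz : orderOf ζu = 2 ^ (n + 1) := by
    refine orderOf_eq_prime_pow ?_ ?_
    · intro h
      have h1 := congrArg Units.val h
      rw [Units.val_pow_eq_pow_val, Units.val_mk0, hζ, Units.val_one] at h1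
      exact (n1 (F := FF)) h1
    · apply Units.ext
      rw [Units.val_pow_eq_pow_val, Units.val_mk0, pow_succ, pow_mul, hζ, Units.val_one]
      norm_num
  have hdvd : orderOf ζu ∣ orderOf g := by rw [hoz, hog]
  set φ : (L ≃ₐ[KK i₀] L) →* FF := (Units.coeHom FF).comp (monoidHomOfForallMemZpowers hg hdvd)
    with hφ
  have hφg : ∀ k : ℕ, φ (g ^ k) = ζ ^ k := by
    intro k
    rw [map_pow]
    congr 1
    rw [hφ, MonoidHom.comp_apply, monoidHomOfForallMemZpowers_apply_gen]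
    rfl
  set ψ : GK i₀ →* FF := φ.comp π with hψ
  have hψa : ∀ σ : GK i₀, ψ σ = φ (π σ) := fun σ => rfl
  have hker : ψ.ker = L.fixingSubgroup := by
    rw [← hπk]
    ext σ
    rw [MonoidHom.mem_ker, MonoidHom.mem_ker, hψa]
    constructor
    · intro h
      obtain ⟨k, hk⟩ := hmem σ
      rw [← hk, hφg] at h
      rw [← hk]
      apply orderOf_dvd_iff_pow_eq_one.1
      rw [hog, Nat.succ_eq_add_one, ← hoz]
      apply orderOf_dvd_iff_pow_eq_one.2
      apply Units.ext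
      rw [Units.val_pow_eq_pow_val, Units.val_mk0, h, Units.val_one]
    · intro h
      rw [h, map_one]
  refine ⟨n, ζ, ψ, ⟨hζ, hr, ?_, ?_, ?_⟩, hker⟩
  · intro σ
    obtain ⟨k, hk⟩ := hmem σ
    refine ⟨k, by rw [hψa, ← hk, hφg], ?_, ?_⟩
    · intro he
      have h1 := hπa σ rL
      rw [← hk, hgk, he.neg_one_pow, one_mul] at h1
      exact h1.symm
    · intro ho
      have h1 := hπa σ rL
      rw [← hk, hgk, (Nat.not_even_iff_odd.1 ho).neg_one_pow, neg_one_mul] at h1
      exact h1.symm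
  · intro u
    have hH : IsOpen (ψ.ker : Set (GK i₀)) := by
      rw [hker]
      exact IntermediateField.fixingSubgroup_isOpen L
    have e : {σ : GK i₀ | ψ σ = u} = ⋃ σ ∈ {σ : GK i₀ | ψ σ = u}, σ • (ψ.ker : Set (GK i₀)) := by
      ext τ
      simp only [Set.mem_setOf_eq, Set.mem_iUnion, exists_prop]
      constructor
      · intro h
        exact ⟨τ, h, ⟨1, ψ.ker.one_mem, by simp⟩⟩
      · rintro ⟨σ, hσ, x, hx, rfl⟩
        have hx' : ψ x = 1 := hx
        show ψ (σ * x) = u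
        rw [map_mul, hσ, hx', mul_one]
    rw [e]
    exact isOpen_biUnion fun σ _ => hH.leftCoset σ
  · intro p _ ι hp hall σ hσ
    have h1 : σ ∈ ψ.ker := by
      rw [hker]
      exact (IntermediateField.mem_fixingSubgroup_iff _ _).2 (hunr p ι hp hall σ hσ)
    exact h1

end Pool.Agent.D0H43.SC
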