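import Mathlib

/-!
# The fields `K(t)`, `t ^ 4` in `K`, for fields `K` that contain a square root of `-1`
-/

set_option autoImplicit false

namespace Pool.Agent.D0H43.SC

open Polynomial IntermediateField

section kum

variable {K : Type} [Field K] {i a : K} (hi : i ^ 2 = -1) (h2 : (2 : K) ≠ 0)

include hi h2

lemma prim4 : IsPrimitiveRoot i 4 := by
  have h : orderOf i = 2 ^ (1 + 1) := by
    refine orderOf_eq_prime_pow ?_ ?_
    · rw [pow_one, hi]
      intro h
      apply h2
      linear_combination -h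
    · have e : i ^ 2 ^ (1 + 1) = (i ^ 2) ^ 2 := by ring
      rw [e, hi]
      norm_num
  have h1 := IsPrimitiveRoot.orderOf i
  rw [h] at h1
  exact h1

lemma irr4 (ha : ∀ b : K, b ^ 2 ≠ a) : Irreducible (X ^ 4 - C a : K[X]) := by
  have h1 : Irreducible (X ^ 2 - C a : K[X]) := X_pow_sub_C_irreducible_of_prime Nat.prime_two ha
  have e : (4 : ℕ) = 2 * 2 := rfl
  rw [e]
  refine X_pow_mul_sub_C_irreducible h1 ?_
  intro E _ _ x hx
  refine X_pow_sub_C_irreducible_of_prime Nat.prime_two ?_
  intro b hb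
  have hint : IsIntegral K x := by
    by_contra hn
    rw [minpoly.eq_zero hn] at hx
    have := congrArg natDegree hx
    rw [natDegree_zero, natDegree_X_pow_sub_C] at this
    omega
  have h3 : Algebra.norm K (AdjoinSimple.gen K x) = -a := by
    have h4 := Algebra.PowerBasis.norm_gen_eq_coeff_zero_minpoly (adjoin.powerBasis hint)
    rw [adjoin.powerBasis_gen, minpoly_gen, hx] at h4
    rw [h4, adjoin.powerBasis_dim, hx, natDegree_X_pow_sub_C]
    simp
  rw [← hb, map_pow] at h3
  refine ha (i * Algebra.norm K b) ?_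
  rw [mul_pow, hi, h3]
  ring

variable {Ω : Type} [Field Ω] [Algebra K Ω]

theorem kum4 (ha : ∀ b : K, b ^ 2 ≠ a) {t : Ω} (ht : t ^ 4 = algebraMap K Ω a) :
    FiniteDimensional K K⟮t⟯ ∧ Module.finrank K K⟮t⟯ = 4 ∧ IsGalois K K⟮t⟯ ∧
      IsCyclic (K⟮t⟯ ≃ₐ[K] K⟮t⟯) := by
  have hirr := irr4 hi h2 ha
  have hmon : (X ^ 4 - C a : K[X]).Monic := monic_X_pow_sub_C a (by norm_num)
  have hroot : aeval t (X ^ 4 - C a : K[X]) = 0 := by simp [ht]
  have hmin : minpoly K t = X ^ 4 - C a := (minpoly.eq_of_irreducible_of_monic hirr hroot hmon).symm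
  have hint : IsIntegral K t := ⟨_, hmon, by rwa [← aeval_def]⟩
  have hfd : FiniteDimensional K K⟮t⟯ := adjoin.finiteDimensional hint
  have hfin : Module.finrank K K⟮t⟯ = 4 := by
    rw [adjoin.finrank hint, hmin, natDegree_X_pow_sub_C]
  have hprim : (primitiveRoots 4 K).Nonempty :=
    ⟨i, (mem_primitiveRoots (by norm_num)).2 (prim4 hi h2)⟩
  have htop : adjoin K {AdjoinSimple.gen K t} = (⊤ : IntermediateField K K⟮t⟯) := by
    apply IntermediateField.map_injective (K⟮t⟯.val)
    rw [IntermediateField.adjoin_map, Set.image_singleton]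
    have e : K⟮t⟯.val (AdjoinSimple.gen K t) = t := AdjoinSimple.coe_gen K t
    rw [e, ← AlgHom.fieldRange_eq_map, IntermediateField.fieldRange_val]
  have hsp : IsSplittingField K K⟮t⟯ (X ^ 4 - C a) := by
    have h3 := isSplittingField_X_pow_sub_C_of_root_adjoin_eq_top (K := K) (L := K⟮t⟯)
      (by rw [hfin]; exact hprim) (a := a) (α := AdjoinSimple.gen K t) (by
        rw [hfin]
        apply Subtype.ext
        rw [SubmonoidClass.coe_pow, AdjoinSimple.coe_gen, ht]
        rfl) htop
    rwa [hfin] at h3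
  exact ⟨hfd, hfin, isGalois_of_isSplittingField_X_pow_sub_C hprim hirr _,
    isCyclic_of_isSplittingField_X_pow_sub_C hprim hirr _⟩

end kum

end Pool.Agent.D0H43.SC
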