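import Pool.Agent.D0H43.SC.Ext
import Pool.Agent.D0H43.SC.Kum

/-!
# Fourth roots; integrality
-/

set_option autoImplicit false
set_option linter.unusedSectionVars false

namespace Pool.Agent.D0H43.SC

open H385 (ZI im1 nrm)
open Pool.Agent.Y715.Red Pool.Agent.Y715.Nr Pool.Agent.Y715.Gi
open Pool.Agent.Y715.Df (Cmp exists_cmp exists_emb)
open Pool.Agent.Y715.Lc (norm_two_odd fix_of_unit resid)
open Pool.Agent.Y715.Sel (iota_sq iota_ev exists_emb2)
open Pool.Agent.R384 (II DD fix_I vl cyc cyc_spec cyc_four)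
open Pool.Agent.D0H43.SG (rt_or)

variable {i₀ : QB} (hi : i₀ ^ 2 = -1)

include hi in
/-- the powers of the cyclotomic character are not trivial on the `2 ^ (N + 1)`-th powers of the
elements of the decomposition groups above two -/
theorem exists_cyc_pow_ne (ι : QB →ₐ[ℚ] PadicAlgCl 2) {k : ℤ} (hk : k ≠ 0) (N : ℕ) :
    ∃ σ ∈ (DD ι : Set (GK i₀)), (cyc i₀ (σ ^ 2 ^ (N + 1))) ^ k ≠ 1 := by
  obtain ⟨z, hz⟩ : ∃ z : QB, z ^ 2 = i₀ := IsAlgClosed.exists_pow_nat_eq _ (by norm_num)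
  have hI := iota_sq hi ι
  obtain ⟨τ, hτ, hτI, hτr⟩ := Pool.Agent.Y715.Two2.exists_inert hI (δ := ι i₀)
    (ζ := ι z) (Or.inl rfl) (by rw [← map_pow, hz])
  obtain ⟨σ, hc⟩ := exists_cmp ι τ hτI
  have hne : σ z ≠ z := by
    intro h
    apply hτr
    rw [hc, h]
  have h8 : z ^ 2 ^ 3 = 1 := by
    have : z ^ 2 ^ 3 = ((z ^ 2) ^ 2) ^ 2 := by ring
    rw [this, hz, hi]
    norm_num
  have h1 := cyc_spec σ h8
  refine ⟨σ, ⟨τ, hc⟩, ?_⟩
  rw [map_pow]
  have e : ((cyc i₀ σ) ^ 2 ^ (N + 1)) ^ k = (cyc i₀ σ) ^ (2 * (2 ^ N * k)) := by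
    rw [← zpow_natCast, ← zpow_mul]
    congr 1
    push_cast
    ring
  rw [e]
  refine Pool.Agent.N848.Q.inf_order ?_ ?_ (mul_ne_zero (by positivity) hk)
  · intro h2
    apply hne
    rw [h2, Units.val_one, map_one] at h1
    have : ((1 : ZMod (2 ^ 3))).val = 1 := by decide
    rw [this, pow_one] at h1
    exact h1
  · intro h2
    have h3 := (cyc_four hi σ).1 (gk_fix σ)
    rw [h2] at h3
    obtain ⟨t, ht⟩ := h3
    rw [Units.val_neg, Units.val_one] at ht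
    have h6 : (2 : ℤ_[2]) * (2 * t + 1) = 0 := by linear_combination -ht
    have h7 : (2 : ℤ_[2]) * t + 1 = 0 := (mul_eq_zero.1 h6).resolve_left two_ne_zero
    have h8 : IsUnit (2 : ℤ_[2]) := IsUnit.of_mul_eq_one (-t) (by linear_combination -h7)
    exact (PadicInt.prime_p (p := 2)).not_isUnit (by exact_mod_cast h8)

/-! ### Fourth roots -/

section loc

variable {p : ℕ} [Fact p.Prime] {I : PadicAlgCl p} (hI : I ^ 2 = -1)

include hI in
lemma norm_one_of : ∀ {a : ZI}, a ≠ 0 → (∀ q : ZI, Prime q → q ∣ a → ‖ev I hI q‖ = 1) →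
    ‖ev I hI a‖ = 1 := by
  intro a
  induction a using UniqueFactorizationMonoid.induction_on_prime with
  | h₁ => intro h _; exact absurd rfl h
  | h₂ x hx =>
    intro _ _
    obtain ⟨y, hy⟩ := hx.exists_right_inv
    have h1 : ‖ev I hI x‖ * ‖ev I hI y‖ = 1 := by
      rw [← norm_mul, ← map_mul, hy, map_one, norm_one]
    refine le_antisymm (ev_le hI x) ?_
    calc (1 : ℝ) = ‖ev I hI x‖ * ‖ev I hI y‖ := h1.symm
      _ ≤ ‖ev I hI x‖ * 1 := mul_le_mul_of_nonneg_left (ev_le hI y) (norm_nonneg _)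
      _ = ‖ev I hI x‖ := mul_one _
  | h₃ a q ha hq ih =>
    intro _ h
    rw [map_mul, norm_mul, h q hq (dvd_mul_right _ _), one_mul]
    exact ih ha fun q' hq' hd => h q' hq' (hd.mul_left _)

lemma norm_two_one (hp : p ≠ 2) : ‖(2 : PadicAlgCl p)‖ = 1 := norm_two_odd hp

/-- a fourth root of unity congruent to one -/
lemma four_one (hp : p ≠ 2) {w : PadicAlgCl p} (hw : w ^ 4 = 1) (h : ‖w - 1‖ < 1) : w = 1 := by
  have h2 := norm_two_odd hp
  have h3 : ‖w + 1‖ = 1 := by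
    have e : w + 1 = (w - 1) + 2 := by ring
    rw [e, IsUltrametricDist.norm_add_eq_max_of_norm_ne_norm (by rw [h2]; exact h.ne), h2]
    exact max_eq_right h.le
  have h4 : ‖w ^ 2 + 1‖ = 1 := by
    have e : w ^ 2 + 1 = (w - 1) * (w + 1) + 2 := by ring
    have h5 : ‖(w - 1) * (w + 1)‖ < 1 := by rw [norm_mul, h3, mul_one]; exact h
    rw [e, IsUltrametricDist.norm_add_eq_max_of_norm_ne_norm (by rw [h2]; exact h5.ne), h2]
    exact max_eq_right h5.le
  have h5 : (w - 1) * ((w + 1) * (w ^ 2 + 1)) = 0 := by linear_combination hw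
  rcases mul_eq_zero.1 h5 with h6 | h6
  · exact sub_eq_zero.1 h6
  · exfalso
    have h7 := congrArg norm h6
    rw [norm_mul, h3, h4, norm_zero] at h7
    norm_num at h7

end loc

/-- the fourth roots are unramified at the primes prime to two at which the square root is -/
theorem four_unr {D z : ZI} (hD : Squarefree D) {k : ℕ} (hz : z ∣ (2 * D) ^ k) {s t : QB}
    (hs : s ^ 2 = ev i₀ hi D) (ht : t ^ 4 = ev i₀ hi (D * z ^ 2)) {p : ℕ} [Fact p.Prime]
    {ι : QB →ₐ[ℚ] PadicAlgCl p} (hp : p ≠ 2) (h : ∀ σ ∈ (II ι : Set (GK i₀)), σ s = s) {σ : GK i₀}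
    (hσ : σ ∈ (II ι : Set (GK i₀))) : σ t = t := by
  have hI := iota_sq hi ι
  have hD0 : D ≠ 0 := hD.ne_zero
  have h2D : (2 * D : ZI) ^ k ≠ 0 := pow_ne_zero _ (mul_ne_zero (by decide) hD0)
  have hz0 : z ≠ 0 := fun h0 => h2D (by rw [h0] at hz; exact zero_dvd_iff.1 hz)
  have hn : ‖ev (ι i₀) hI (D * z ^ 2)‖ = 1 := by
    refine norm_one_of hI (mul_ne_zero hD0 (pow_ne_zero _ hz0)) fun q hq hqd => ?_
    refine eq_one_of_not_lt hI fun hlt => ?_
    have hqD : ¬ q ∣ D := by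
      refine not_dvd_of_fix hI hp hq hlt hD (s := ι s) (by rw [← map_pow, hs, iota_ev]) ?_
      intro τ hin hτ
      exact fix_I h τ hin hτ
    have hq2 : ¬ q ∣ 2 := by
      intro hd
      have h1 := (dvd_iff hI hq hlt 2).1 hd
      have e : ev (ι i₀) hI (2 : ZI) = 2 := map_ofNat _ 2
      rw [e, norm_two_odd hp] at h1
      exact lt_irrefl _ h1
    have hqz : ¬ q ∣ z := fun hd => (hq.dvd_or_dvd (hq.dvd_of_dvd_pow (hd.trans hz))).elim hq2 hqD
    exact (hq.dvd_or_dvd hqd).elim hqD fun hd => hqz (hq.dvd_of_dvd_pow hd)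
  obtain ⟨τ, hc, hin⟩ := hσ
  have h4 : (ι t) ^ 4 = ev (ι i₀) hI (D * z ^ 2) := by rw [← map_pow, ht, iota_ev]
  have hnt : ‖ι t‖ = 1 := by
    have h5 : ‖ι t‖ ^ 4 = 1 := by rw [← norm_pow, h4, hn]
    exact (pow_eq_one_iff_of_nonneg (norm_nonneg _) (by norm_num)).1 h5
  have ht0 : ι t ≠ 0 := by
    intro h0
    rw [h0, norm_zero] at hnt
    norm_num at hnt
  have h6 : ‖τ (ι t) - ι t‖ < 1 := hin _ hnt.le
  have h7 : ι (σ t) ^ 4 = (ι t) ^ 4 := by
    rw [← map_pow, ← map_pow σ, ht, gk_ev, iota_ev, h4]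
  have h8 : ι (σ t) / ι t = 1 := by
    refine four_one hp ?_ ?_
    · rw [div_pow, h7, div_self (pow_ne_zero _ ht0)]
    · have e : ι (σ t) / ι t - 1 = (τ (ι t) - ι t) / ι t := by
        rw [hc]
        field_simp
      rw [e, norm_div, hnt, div_one]
      exact h6
  have h9 : ι (σ t) = ι t := by rwa [div_eq_one_iff_eq ht0] at h8
  exact ι.toRingHom.injective h9

end Pool.Agent.D0H43.SC
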